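import Pool.Agent.Helper32K9.QB.Gen2
import Pool.Agent.Helper82K9.PR.PU3

set_option autoImplicit false

/-! The second moment over the polynomials in a residue class modulo the product of the primes up to `zH`. -/

namespace Pool.Agent.Helper82K9.PW

open Finset Filter Pool.Agent.Helper82K9.PR Pool.Agent.Helper32K9.QA Pool.Agent.Helper32K9.QB

/-- the comparison -/
lemma cmpH (d B A : ℕ) (ρ : ℝ) (hρ0 : 0 < ρ) (hρ1 : ρ ≤ 1 / 2) : ∃ H₀ : ℕ, ∀ H : ℕ, H₀ ≤ H →
    ∀ (ι : Type) [Fintype ι] [DecidableEq ι], Fintype.card ι ≤ d + 1 → ∀ t : ι → ℕ, Function.Injective t →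
    (∀ a, 1 ≤ t a ∧ (t a : ℝ) ≤ Real.log H ^ B) → ∀ θ : (Fin (d + 1) → ℤ) → ℝ, (∀ v, 0 ≤ θ v) →
    (∀ v, θ v ≤ 1) → (∀ v ρ, θ (v + ((primorial (zH H) : ℕ) : ℤ) • ρ) = θ v) → ∀ s : Finset ι,
    |∑ v ∈ Bx d H, (∏ a, if a ∈ s then om (Real.log H) (pv v (t a)) else MM (primorial (zH H)) (pv v (t a))) * θ v -
      ∑ v ∈ Bx d H, (∏ a, MM (primorial (zH H)) (pv v (t a))) * θ v| ≤
      ρ * ∑ v ∈ Bx d H, (∏ a, MM (primorial (zH H)) (pv v (t a))) * θ v + (Bx d H).card / Real.log H ^ A := by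
  obtain ⟨H2, hH2, hcomb⟩ := comb' d B 1 A 0 (ρ / 2) (by positivity)
  obtain ⟨H3, hH3, hpar⟩ := zH_facts d B 1 (ρ / 24) (by positivity)
  refine ⟨max H2 H3, fun H hH ι _ _ hcard t hinj ht θ hθ0 hθ1 hθi s => ?_⟩
  obtain ⟨hL2, hz2, hW, -, hSgB, -⟩ := hpar H ((le_max_right _ _).trans hH)
  set L := Real.log H with hL
  set z := zH H with hz
  have hL1 : 1 ≤ L := by linarith
  have hX1 : 1 ≤ ⌊L ^ B⌋₊ := by
    rw [Nat.one_le_floor_iff]
    exact one_le_pow₀ hL1
  have hX2 : ((⌊L ^ B⌋₊ : ℕ) : ℝ) ≤ L ^ B := Nat.floor_le (by positivity)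
  have h := hcomb H ((le_max_left _ _).trans hH) ι hcard z ⌊L ^ B⌋₊ (by rw [pow_one]; exact hW) hX1
    hX2 t hinj (fun a => ⟨(ht a).1, Nat.le_floor (ht a).2⟩) (fun _ => 0) (by
      intro a
      simp) θ hθ0 hθ1 hθi s
  simp only [add_zero] at h
  unfold PA at h
  have hT00 : 0 ≤ ∑ v ∈ Bx d H, (∏ a, MM (primorial z) (pv v (t a))) * θ v :=
    sum_nonneg fun v _ => mul_nonneg (prod_nonneg fun a _ => MM_nonneg _ _) (hθ0 v)
  have hSg : Sg z t ≤ ρ / 24 :=
    (Sg_le d z ⌊L ^ B⌋₊ hz2 hX1 t hinj (fun a => Nat.le_floor (ht a).2) hcard).trans (hSgB _ hX1 hX2)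
  have hSg0 : 0 ≤ Sg z t := sum_nonneg fun a _ => sg_nonneg z _
  have hexp : Real.exp (2 * Sg z t) - 1 ≤ ρ / 6 := by
    have h2 := Real.abs_exp_sub_one_le (x := 2 * Sg z t) (by
      rw [abs_of_nonneg (by positivity)]
      linarith)
    rw [abs_of_nonneg (by positivity : 0 ≤ 2 * Sg z t)] at h2
    have := le_abs_self (Real.exp (2 * Sg z t) - 1)
    linarith
  refine h.trans ?_
  apply add_le_add_left
  apply mul_le_mul_of_nonneg_right _ hT00
  linarith

theorem genM (r d B D : ℕ) (hd : 2 * r ≤ d + 1) (ε : ℝ) (hε : 0 < ε) : ∃ A : ℕ, 3 ≤ A ∧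
    ∀ H : ℕ, A ≤ H → ∀ (α : Type) (M : Finset α) (t : α → Fin r → ℕ),
    (∀ m ∈ M, Function.Injective (t m) ∧ ∀ a, 1 ≤ t m a ∧ (t m a : ℝ) ≤ Real.log H ^ B) →
    (∀ m ∈ M, (M.filter (fun m' => ¬ Apart (t m) (t m'))).card ≤ D) → A * Real.log H ^ r ≤ M.card →
    ∀ c : α → ℝ, (∀ m, |c m| ≤ 1) → ∀ P : Fin (d + 1) → ℤ,
    ∑ v ∈ Cl d H (primorial (zH H)) P, (∑ m ∈ M, c m * (Fr (Real.log H) (t m) v - Rr (zH H) (t m) P)) ^ 2 ≤
      ε * (M.card + ∑ m ∈ M, |c m| * Rr (zH H) (t m) P) ^ 2 * (Cl d H (primorial (zH H)) P).card := by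
  set ρ : ℝ := min (ε / 12) (1 / 2) with hρ
  have hρ0 : 0 < ρ := lt_min (by positivity) (by norm_num)
  have hρ1 : ρ ≤ 1 / 2 := min_le_right _ _
  have hρ2 : ρ ≤ ε / 12 := min_le_left _ _
  obtain ⟨H2, hcmp⟩ := cmpH d B (2 * (d + 1) + 1) ρ hρ0 hρ1
  obtain ⟨H3, hH3, hpar⟩ := zH_facts d B 1 1 one_pos
  have hlog : Tendsto (fun n : ℕ => Real.log n) atTop atTop := Real.tendsto_log_atTop.comp tendsto_natCast_atTop_atTop
  have e6 := (tendsto_natCast_atTop_atTop (R := ℝ)).eventually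
    ((Real.isLittleO_pow_log_id_atTop (n := 1)).def (show (0 : ℝ) < 1 by norm_num))
  obtain ⟨H4, h4⟩ := ((hlog.eventually_ge_atTop (max 2 (12 / ε))).and e6).exists_forall_of_atTop
  obtain ⟨A1, hA1⟩ := exists_nat_ge (24 * (D : ℝ) / ε)
  refine ⟨max (max H2 (max H3 H4)) (max A1 3), (le_max_right _ _).trans (le_max_right _ _),
    fun H hH α M t ht hD hM c hc P => ?_⟩
  have g0 : max H2 (max H3 H4) ≤ H := (le_max_left _ _).trans hH
  have g2 : H2 ≤ H := (le_max_left _ _).trans g0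
  have g3 : H3 ≤ H := (le_max_left _ _).trans ((le_max_right _ _).trans g0)
  have g4 : H4 ≤ H := (le_max_right _ _).trans ((le_max_right _ _).trans g0)
  obtain ⟨hL1', hz2, hW, hzL, -, -⟩ := hpar H g3
  obtain ⟨hLε', hLH⟩ := h4 H g4
  have hcmp' := hcmp H g2
  set L := Real.log H with hL
  have hL2 : 2 ≤ L := (le_max_left _ _).trans hLε'
  have hLε : 12 / ε ≤ L := (le_max_right _ _).trans hLε'
  have hL0 : 0 < L := by linarith
  set z := zH H with hz
  set W := primorial z with hWdef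
  have hW1 : 1 ≤ W := primorial_pos z
  set N : ℝ := ((Bx d H).card : ℝ) with hN
  have hN0 : 0 ≤ N := Nat.cast_nonneg _
  set C := Cl d H W P with hC
  set N0 : ℝ := (C.card : ℝ) with hN0def
  have hN00 : 0 ≤ N0 := Nat.cast_nonneg _
  -- the size of the class
  have hWH : 2 * W ≤ 2 * H + 1 := by
    have h1 : L ≤ H := by
      simp only [id, Real.norm_eq_abs, pow_one] at hLH
      rw [abs_of_nonneg (by positivity), abs_of_nonneg (Nat.cast_nonneg _)] at hLH
      linarith
    have h2 : (W : ℝ) ≤ H := hW.trans h1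
    have h3 : W ≤ H := by exact_mod_cast h2
    omega
  have hNN0 : N / L ^ (2 * (d + 1) + 1) ≤ N0 / L := by
    have h1 := class_card d H W hW1 hWH P
    have h2 : (2 * (W : ℝ)) ^ (d + 1) ≤ L ^ (2 * (d + 1)) := by
      rw [pow_mul]
      apply pow_le_pow_left₀ (by positivity)
      rw [pow_two]
      gcongr
    rw [div_le_div_iff₀ (by positivity) hL0]
    calc N * L ≤ ((2 * (W : ℝ)) ^ (d + 1) * N0) * L := by gcongr
      _ ≤ (L ^ (2 * (d + 1)) * N0) * L := by gcongr
      _ = N0 * L ^ (2 * (d + 1) + 1) := by rw [pow_succ]; ring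
  -- the indicator of the class
  set θ : (Fin (d + 1) → ℤ) → ℝ := fun v => if (∀ i, (W : ℤ) ∣ v i - P i) then 1 else 0 with hθ
  have hθ0 : ∀ v, 0 ≤ θ v := fun v => by simp only [hθ]; split_ifs <;> norm_num
  have hθ1 : ∀ v, θ v ≤ 1 := fun v => by simp only [hθ]; split_ifs <;> norm_num
  have hθi : ∀ v ρ, θ (v + ((W : ℕ) : ℤ) • ρ) = θ v := by
    intro v r'
    simp only [hθ]
    congr 1
    apply propext
    apply forall_congr'
    intro i
    have h1 : (v + (W : ℤ) • r') i - P i = (v i - P i) + W * r' i := by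
      simp only [Pi.add_apply, Pi.smul_apply, smul_eq_mul]; ring
    rw [h1, Int.dvd_add_left (dvd_mul_right _ _)]
  have hθsum : ∀ G : (Fin (d + 1) → ℤ) → ℝ, ∑ v ∈ Bx d H, G v * θ v = ∑ v ∈ C, G v := by
    intro G
    rw [hC]
    unfold Cl
    rw [sum_filter]
    apply sum_congr rfl
    intro v _
    simp only [hθ]
    split_ifs <;> ring
  set R : α → ℝ := fun m => Rr z (t m) P with hR
  have hR0 : ∀ m, 0 ≤ R m := fun m => Rr_nonneg _ _ _
  have hRv : ∀ m, ∀ v ∈ C, Rr z (t m) v = R m := by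
    intro m v hv
    exact Rr_class z (t m) v P (mem_filter.1 hv).2
  have hRL : ∀ m, R m ≤ L ^ r := fun m => (Rr_le z (by omega) _ _).trans (pow_le_pow_left₀ (Nat.cast_nonneg _) hzL r)
  set F : α → (Fin (d + 1) → ℤ) → ℝ := fun m v => Fr L (t m) v with hF
  have hF0 : ∀ m v, 0 ≤ F m v := fun m v => Fr_nonneg hL0.le _ _
  have hFL : ∀ m v, F m v ≤ L ^ r := fun m v => Fr_le hL0.le _ _
  set Y : α → α → ℝ := fun m m' => ∑ v ∈ C, (F m v - R m) * (F m' v - R m') with hY
  -- good pairs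
  have hgood : ∀ m ∈ M, ∀ m' ∈ M, Apart (t m) (t m') → |Y m m'| ≤ 3 * (ρ * (R m * R m' * N0) + N0 / L) := by
    intro m hm m' hm' hap
    have hinj := elim_inj (t m) (t m') (ht m hm).1 (ht m' hm').1 hap
    have hbd : ∀ a, 1 ≤ Sum.elim (t m) (t m') a ∧ ((Sum.elim (t m) (t m') a : ℕ) : ℝ) ≤ L ^ B := by
      intro a
      rcases a with a | a
      · exact (ht m hm).2 a
      · exact (ht m' hm').2 a
    have hX0 : ∑ v ∈ Bx d H, (∏ a, MM W (pv v (Sum.elim (t m) (t m') a))) * θ v = R m * R m' * N0 := by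
      rw [hθsum]
      have : ∀ v ∈ C, ∏ a, MM W (pv v (Sum.elim (t m) (t m') a)) = R m * R m' := by
        intro v hv
        rw [Fintype.prod_sum_type, ← hRv m v hv, ← hRv m' v hv]
        rfl
      rw [sum_congr rfl this, sum_const, nsmul_eq_mul, mul_comm]
    have key : ∀ (P' Q' : Prop) [Decidable P'] [Decidable Q'],
        |∑ v ∈ C, ((if P' then F m v else R m) * (if Q' then F m' v else R m')) - R m * R m' * N0| ≤
          ρ * (R m * R m' * N0) + N0 / L := by
      intro P' Q' _ _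
      have h1 := hcmp' (Fin r ⊕ Fin r) (by
        rw [Fintype.card_sum, Fintype.card_fin]; omega) (Sum.elim (t m) (t m')) hinj hbd θ hθ0 hθ1 hθi
        (univ.filter (fun a : Fin r ⊕ Fin r => (a.isLeft ∧ P') ∨ (¬ a.isLeft ∧ Q')))
      have hX0' := hX0
      simp only [hWdef] at hX0'
      simp only [hWdef, two_prod] at h1
      rw [hX0', hθsum] at h1
      have h2 : ∑ v ∈ C, ((if P' then Fr L (t m) v else Rr z (t m) v) * (if Q' then Fr L (t m') v else Rr z (t m') v)) =
          ∑ v ∈ C, ((if P' then F m v else R m) * (if Q' then F m' v else R m')) := by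
        apply sum_congr rfl
        intro v hv
        rw [hRv m v hv, hRv m' v hv]
      rw [h2] at h1
      exact h1.trans (add_le_add_right hNN0 _)
    have k1 := key True True
    have k2 := key True False
    have k3 := key False True
    simp only [if_true, if_false] at k1 k2 k3
    have e1 : Y m m' = (∑ v ∈ C, F m v * F m' v - R m * R m' * N0) - (∑ v ∈ C, F m v * R m' - R m * R m' * N0) -
        (∑ v ∈ C, R m * F m' v - R m * R m' * N0) := by
      have e2 : R m * R m' * N0 = ∑ _v ∈ C, R m * R m' := by rw [sum_const, nsmul_eq_mul, mul_comm]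
      simp only [hY]
      rw [e2, ← sum_sub_distrib, ← sum_sub_distrib, ← sum_sub_distrib, ← sum_sub_distrib, ← sum_sub_distrib]
      apply sum_congr rfl
      intro v _
      ring
    rw [e1]
    calc |(∑ v ∈ C, F m v * F m' v - R m * R m' * N0) - (∑ v ∈ C, F m v * R m' - R m * R m' * N0) -
        (∑ v ∈ C, R m * F m' v - R m * R m' * N0)| ≤ |∑ v ∈ C, F m v * F m' v - R m * R m' * N0| +
        |∑ v ∈ C, F m v * R m' - R m * R m' * N0| + |∑ v ∈ C, R m * F m' v - R m * R m' * N0| :=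
          (abs_sub _ _).trans (add_le_add_left (abs_sub _ _) _)
      _ ≤ _ := by linarith
  -- bad pairs
  have hbad : ∀ m ∈ M, ∀ m' ∈ M, |Y m m'| ≤ 2 * L ^ r * (3 * (R m * N0) + N0 / L) := by
    intro m hm m' hm'
    have hRs : ∑ v ∈ C, F m v ≤ 3 / 2 * (R m * N0) + N0 / L := by
      have h1 := hcmp' (Fin r) (by
        rw [Fintype.card_fin]; omega) (t m) (ht m hm).1 (ht m hm).2 θ hθ0 hθ1 hθi univ
      simp only [mem_univ, if_true] at h1
      rw [hθsum, hθsum] at h1
      have h2 : ∑ v ∈ C, ∏ a, MM W (pv v (t m a)) = R m * N0 := by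
        have : ∀ v ∈ C, ∏ a, MM W (pv v (t m a)) = R m := fun v hv => hRv m v hv
        rw [sum_congr rfl this, sum_const, nsmul_eq_mul, mul_comm]
      rw [h2] at h1
      have h3 := (abs_le.1 h1).2
      have h4 : 0 ≤ R m * N0 := mul_nonneg (hR0 m) hN00
      have h5 : ρ * (R m * N0) ≤ 1 / 2 * (R m * N0) := mul_le_mul_of_nonneg_right hρ1 h4
      have h6 : ∑ v ∈ C, F m v = ∑ v ∈ C, ∏ a, om L (pv v (t m a)) := rfl
      rw [h6]
      linarith
    calc |Y m m'| ≤ ∑ v ∈ C, |(F m v - R m) * (F m' v - R m')| := abs_sum_le_sum_abs _ _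
      _ ≤ ∑ v ∈ C, (F m v + R m) * (2 * L ^ r) := by
          apply sum_le_sum
          intro v _
          rw [abs_mul]
          have a1 : |F m v - R m| ≤ F m v + R m := by
            rw [abs_le]
            have := hF0 m v
            have := hR0 m
            constructor <;> linarith
          have a2 : |F m' v - R m'| ≤ 2 * L ^ r := by
            rw [abs_le]
            have := hF0 m' v
            have := hR0 m'
            have := hFL m' v
            have := hRL m'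
            constructor <;> linarith
          exact mul_le_mul a1 a2 (abs_nonneg _) ((abs_nonneg _).trans a1)
      _ = (∑ v ∈ C, F m v + R m * N0) * (2 * L ^ r) := by
          rw [← sum_mul, sum_add_distrib, sum_const, nsmul_eq_mul, mul_comm (R m)]
      _ ≤ (3 / 2 * (R m * N0) + N0 / L + R m * N0) * (2 * L ^ r) := by
          apply mul_le_mul_of_nonneg_right _ (by positivity)
          linarith
      _ ≤ 2 * L ^ r * (3 * (R m * N0) + N0 / L) := by
          have a5 : 0 ≤ (1 / 2 * (R m * N0)) * (2 * L ^ r) := by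
            have := mul_nonneg (hR0 m) hN00
            positivity
          linarith
  -- the sum over the pairs
  set G : (Fin (d + 1) → ℤ) → ℝ := fun v => ∑ m ∈ M, c m * (F m v - R m) with hG
  set Q : ℝ := ∑ m ∈ M, |c m| * R m with hQ
  have hQ0 : 0 ≤ Q := sum_nonneg fun m _ => mul_nonneg (abs_nonneg _) (hR0 m)
  set n : ℝ := (M.card : ℝ) with hn
  have hn1 : 1 ≤ n := by
    refine le_trans ?_ hM
    have a1 : (1 : ℝ) ≤ ((max (max H2 (max H3 H4)) (max A1 3) : ℕ) : ℝ) := by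
      have : 3 ≤ max (max H2 (max H3 H4)) (max A1 3) := (le_max_right _ _).trans (le_max_right _ _)
      exact_mod_cast (by omega : 1 ≤ max (max H2 (max H3 H4)) (max A1 3))
    have a2 : 1 ≤ L ^ r := one_le_pow₀ (by linarith)
    nlinarith
  have hAn : (24 * (D : ℝ) / ε) * L ^ r ≤ n := by
    refine le_trans ?_ hM
    apply mul_le_mul_of_nonneg_right _ (by positivity)
    refine hA1.trans ?_
    exact_mod_cast (le_max_left _ _).trans (le_max_right _ _)
  have hexpand : ∑ v ∈ C, G v ^ 2 = ∑ m ∈ M, ∑ m' ∈ M, (c m * c m') * Y m m' := by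
    have e1 : ∀ v ∈ C, G v ^ 2 = ∑ m ∈ M, ∑ m' ∈ M, (c m * c m') * ((F m v - R m) * (F m' v - R m')) := by
      intro v _
      simp only [hG]
      rw [sq, sum_mul_sum]
      apply sum_congr rfl
      intro m _
      apply sum_congr rfl
      intro m' _
      ring
    rw [sum_congr rfl e1, sum_comm]
    apply sum_congr rfl
    intro m _
    rw [sum_comm]
    apply sum_congr rfl
    intro m' _
    rw [← mul_sum]
  have hrow : ∀ m ∈ M, ∑ m' ∈ M, (c m * c m') * Y m m' ≤
      3 * ρ * N0 * ((|c m| * R m) * Q) + n * (3 * (N0 / L)) + D * (2 * L ^ r * (3 * ((|c m| * R m) * N0) + N0 / L)) := by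
    intro m hm
    rw [← sum_filter_add_sum_filter_not M (fun m' => Apart (t m) (t m')), add_assoc]
    have hb : ∀ m', (c m * c m') * Y m m' ≤ |c m| * |c m'| * |Y m m'| := fun m' => by
      calc (c m * c m') * Y m m' ≤ |(c m * c m') * Y m m'| := le_abs_self _
        _ = _ := by rw [abs_mul, abs_mul]
    have hpos : 0 ≤ 3 * (N0 / L) := by positivity
    have e2 : 3 * ρ * N0 * ((|c m| * R m) * Q) + (n * (3 * (N0 / L)) + D * (2 * L ^ r * (3 * ((|c m| * R m) * N0) + N0 / L))) =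
        (3 * ρ * N0 * ((|c m| * R m) * Q) + n * (3 * (N0 / L))) + D * (2 * L ^ r * (3 * ((|c m| * R m) * N0) + N0 / L)) := by
      ring
    rw [e2]
    apply add_le_add
    · calc ∑ m' ∈ M.filter (fun m' => Apart (t m) (t m')), (c m * c m') * Y m m'
          ≤ ∑ m' ∈ M.filter (fun m' => Apart (t m) (t m')),
            (3 * ρ * N0 * ((|c m| * R m) * (|c m'| * R m')) + 3 * (N0 / L)) := by
            apply sum_le_sum
            intro m' hm'
            rw [mem_filter] at hm'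
            refine (hb m').trans ?_
            have a1 := hgood m hm m' hm'.1 hm'.2
            have a2 : 0 ≤ |c m| * |c m'| := by positivity
            have a3 : |c m| * |c m'| ≤ 1 := mul_le_one₀ (hc m) (abs_nonneg _) (hc m')
            have a4 := mul_le_mul_of_nonneg_left a1 a2
            have a5 : |c m| * |c m'| * (3 * (N0 / L)) ≤ 1 * (3 * (N0 / L)) := mul_le_mul_of_nonneg_right a3 hpos
            linarith
        _ ≤ ∑ m' ∈ M, (3 * ρ * N0 * ((|c m| * R m) * (|c m'| * R m')) + 3 * (N0 / L)) := by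
            apply sum_le_sum_of_subset_of_nonneg (filter_subset _ _)
            intro m' _ _
            have := hR0 m
            have := hR0 m'
            positivity
        _ = _ := by
            rw [sum_add_distrib, ← mul_sum, ← mul_sum, sum_const, nsmul_eq_mul]
    · calc ∑ m' ∈ M.filter (fun m' => ¬ Apart (t m) (t m')), (c m * c m') * Y m m'
          ≤ ∑ _m' ∈ M.filter (fun m' => ¬ Apart (t m) (t m')), (2 * L ^ r * (3 * ((|c m| * R m) * N0) + N0 / L)) := by
            apply sum_le_sum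
            intro m' hm'
            rw [mem_filter] at hm'
            refine (hb m').trans ?_
            have a1 := hbad m hm m' hm'.1
            have a6 : |c m| * |c m'| * |Y m m'| ≤ |c m| * 1 * |Y m m'| := by
              apply mul_le_mul_of_nonneg_right _ (abs_nonneg _)
              exact mul_le_mul_of_nonneg_left (hc m') (abs_nonneg _)
            have a7 : |c m| * 1 * |Y m m'| ≤ |c m| * 1 * (2 * L ^ r * (3 * (R m * N0) + N0 / L)) :=
              mul_le_mul_of_nonneg_left a1 (by positivity)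
            have a8 : |c m| * (2 * L ^ r * (N0 / L)) ≤ 1 * (2 * L ^ r * (N0 / L)) :=
              mul_le_mul_of_nonneg_right (hc m) (by positivity)
            linarith
        _ = ((M.filter (fun m' => ¬ Apart (t m) (t m'))).card : ℝ) * (2 * L ^ r * (3 * ((|c m| * R m) * N0) + N0 / L)) := by
            rw [sum_const, nsmul_eq_mul]
        _ ≤ D * (2 * L ^ r * (3 * ((|c m| * R m) * N0) + N0 / L)) := by
            have := hR0 m
            apply mul_le_mul_of_nonneg_right _ (by positivity)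
            exact_mod_cast hD m hm
  have b1 : ∑ v ∈ C, G v ^ 2 ≤ 3 * ρ * N0 * (Q * Q) + n * (n * (3 * (N0 / L))) +
      D * (2 * L ^ r * (3 * (Q * N0) + n * (N0 / L))) := by
    rw [hexpand]
    refine (sum_le_sum hrow).trans (le_of_eq ?_)
    rw [sum_add_distrib, sum_add_distrib, ← mul_sum, ← sum_mul, sum_const, nsmul_eq_mul, ← mul_sum, ← mul_sum,
      sum_add_distrib, ← mul_sum, ← sum_mul, sum_const, nsmul_eq_mul]
  have b2 : 3 * ρ * N0 * (Q * Q) ≤ ε / 4 * ((n + Q) ^ 2 * N0) := by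
    have c1 : 3 * ρ ≤ ε / 4 := by linarith
    have c2 : Q * Q ≤ (n + Q) ^ 2 := by nlinarith
    calc 3 * ρ * N0 * (Q * Q) = (3 * ρ) * (Q * Q * N0) := by ring
      _ ≤ (ε / 4) * ((n + Q) ^ 2 * N0) := by gcongr
  have b3 : n * (n * (3 * (N0 / L))) ≤ ε / 4 * ((n + Q) ^ 2 * N0) := by
    have c1 : 3 / L ≤ ε / 4 := by
      rw [div_le_iff₀ hε] at hLε
      rw [div_le_iff₀ hL0]
      linarith
    have c2 : n * n ≤ (n + Q) ^ 2 := by nlinarith
    calc n * (n * (3 * (N0 / L))) = (3 / L) * (n * n * N0) := by ring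
      _ ≤ (ε / 4) * ((n + Q) ^ 2 * N0) := by gcongr
  have b4 : (D : ℝ) * (2 * L ^ r * (3 * (Q * N0) + n * (N0 / L))) ≤ ε / 4 * ((n + Q) ^ 2 * N0) := by
    have c0 : (D : ℝ) * L ^ r ≤ ε / 24 * n := by
      have c2 : ε / 24 * ((24 * (D : ℝ) / ε) * L ^ r) ≤ ε / 24 * n :=
        mul_le_mul_of_nonneg_left hAn (by positivity)
      have c3 : ε / 24 * ((24 * (D : ℝ) / ε) * L ^ r) = D * L ^ r := by field_simp
      linarith
    have c4 : N0 / L ≤ N0 := div_le_self hN00 (by linarith)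
    have c5 : 3 * (Q * N0) + n * (N0 / L) ≤ 3 * ((n + Q) * N0) := by
      have : n * (N0 / L) ≤ n * N0 := mul_le_mul_of_nonneg_left c4 (by linarith)
      have : 0 ≤ n * N0 := by positivity
      nlinarith
    calc (D : ℝ) * (2 * L ^ r * (3 * (Q * N0) + n * (N0 / L))) = (D * L ^ r) * (2 * (3 * (Q * N0) + n * (N0 / L))) := by ring
      _ ≤ (ε / 24 * n) * (2 * (3 * ((n + Q) * N0))) := by gcongr
      _ = ε / 4 * (n * (n + Q) * N0) := by ring
      _ ≤ ε / 4 * ((n + Q) ^ 2 * N0) := by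
          apply mul_le_mul_of_nonneg_left _ (by positivity)
          apply mul_le_mul_of_nonneg_right _ hN00
          nlinarith
  have b5 : 0 ≤ ε / 4 * ((n + Q) ^ 2 * N0) := by positivity
  linarith

end Pool.Agent.Helper82K9.PW
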