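import Pool.Agent.Helper82K9.PW.PW9

set_option autoImplicit false

/-! The constants of the prime quadruples. -/

namespace Pool.Agent.Helper82K9.PW

open Finset Filter Pool.Agent.Helper82K9.PR Pool.Agent.Helper82K9.PV Pool.Agent.Helper32K9.QB

lemma nuQ_big (Q : Finset ℕ) (p : ℕ) (h : ∀ q ∈ Q, q < p) : nuQ Q p = Q.card := by
  unfold nuQ
  apply card_image_of_injOn
  intro a ha b hb hab
  have h1 := h a (mem_coe.1 ha)
  have h2 := h b (mem_coe.1 hb)
  have hab' : a % p = b % p := hab
  rwa [Nat.mod_eq_of_lt h1, Nat.mod_eq_of_lt h2] at hab'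

/-- the factors of the constant `E` -/
noncomputable def gE (p : ℕ) : ℝ := if p ≤ 3 then 1 else (p : ℝ) ^ 3 * ((p : ℝ) - 4) / ((p : ℝ) - 1) ^ 4

/-- the constant `E` -/
noncomputable def EE : ℝ := 27 / 2 * ∏' p : Nat.Primes, gE (p : ℕ)

lemma small_primes (p : ℕ) (hp : p.Prime) (h : p < 11) : p = 2 ∨ p = 3 ∨ p = 5 ∨ p = 7 := by
  have := hp.two_le
  interval_cases p <;> first | (left; rfl) | (right; left; rfl) | (right; right; left; rfl) | (right; right; right; rfl) |
    (exfalso; revert hp; decide)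

lemma four (p : ℝ) (hp : 1 < p) : (1 - (4 : ℝ) / p) / (1 - 1 / p) ^ 4 = p ^ 3 * (p - 4) / (p - 1) ^ 4 := by
  have h1 : p ≠ 0 := by linarith
  have h2 : p - 1 ≠ 0 := by linarith
  have h3 : 1 - 1 / p = (p - 1) / p := by field_simp
  have h4 : 1 - 4 / p = (p - 4) / p := by field_simp
  rw [h3, h4, div_pow, div_div_div_eq, div_eq_div_iff (by positivity) (by positivity)]
  ring

lemma card0268 : ({0, 2, 6, 8} : Finset ℕ).card = 4 := by decide

lemma card04610 : ({0, 4, 6, 10} : Finset ℕ).card = 4 := by decide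

lemma facA (p : ℕ) (hp : p.Prime) : fac {0, 2, 6, 8} p = gE p * (if p = 2 then 8 else if p = 3 then 27 / 16 else 1) := by
  unfold fac gE
  rw [card0268]
  rcases Nat.lt_or_ge p 11 with h | h
  · rcases small_primes p hp h with rfl | rfl | rfl | rfl
    · have : nuQ {0, 2, 6, 8} 2 = 1 := by decide
      rw [this]; norm_num
    · have : nuQ {0, 2, 6, 8} 3 = 2 := by decide
      rw [this]; norm_num
    · have : nuQ {0, 2, 6, 8} 5 = 4 := by decide
      rw [this]; norm_num
    · have : nuQ {0, 2, 6, 8} 7 = 4 := by decide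
      rw [this]; norm_num
  · have h1 : nuQ {0, 2, 6, 8} p = 4 := by
      rw [nuQ_big, card0268]
      intro q hq
      simp only [mem_insert, mem_singleton] at hq
      omega
    have hp1 : (1 : ℝ) < p := by exact_mod_cast (by omega : 1 < p)
    rw [h1, if_neg (by omega), if_neg (by omega), if_neg (by omega), mul_one]
    push_cast
    exact four p hp1

lemma facB (p : ℕ) (hp : p.Prime) : fac {0, 4, 6, 10} p =
    gE p * (if p = 2 then 8 else if p = 3 then 27 / 16 else if p = 5 then 2 else 1) := by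
  unfold fac gE
  rw [card04610]
  rcases Nat.lt_or_ge p 11 with h | h
  · rcases small_primes p hp h with rfl | rfl | rfl | rfl
    · have : nuQ {0, 4, 6, 10} 2 = 1 := by decide
      rw [this]; norm_num
    · have : nuQ {0, 4, 6, 10} 3 = 2 := by decide
      rw [this]; norm_num
    · have : nuQ {0, 4, 6, 10} 5 = 3 := by decide
      rw [this]; norm_num
    · have : nuQ {0, 4, 6, 10} 7 = 4 := by decide
      rw [this]; norm_num
  · have h1 : nuQ {0, 4, 6, 10} p = 4 := by
      rw [nuQ_big, card04610]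
      intro q hq
      simp only [mem_insert, mem_singleton] at hq
      omega
    have hp1 : (1 : ℝ) < p := by exact_mod_cast (by omega : 1 < p)
    rw [h1, if_neg (by omega), if_neg (by omega), if_neg (by omega), if_neg (by omega), mul_one]
    push_cast
    exact four p hp1

lemma gE_pos (p : ℕ) (hp : p.Prime) : 0 < gE p := by
  unfold gE
  split_ifs with h
  · norm_num
  · push Not at h
    have h5 : 5 ≤ p := by
      rcases Nat.lt_or_ge p 5 with h5 | h5
      · have : p = 4 := by omega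
        subst this
        exact absurd hp (by decide)
      · exact h5
    have h6 : (5 : ℝ) ≤ p := by exact_mod_cast h5
    have h7 : 0 < (p : ℝ) - 4 := by linarith
    have h8 : 0 < (p : ℝ) - 1 := by linarith
    positivity

/-- the prime number `2` -/
def P2 : Nat.Primes := ⟨2, Nat.prime_two⟩

/-- the prime number `3` -/
def P3 : Nat.Primes := ⟨3, Nat.prime_three⟩

/-- the prime number `5` -/
def P5 : Nat.Primes := ⟨5, Nat.prime_five⟩

lemma prod23 (c : ℕ → ℝ) (hc : ∀ p : ℕ, p ≠ 2 → p ≠ 3 → c p = 1) :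
    Multipliable (fun p : Nat.Primes => c (p : ℕ)) ∧ ∏' p : Nat.Primes, c (p : ℕ) = c 2 * c 3 := by
  have h : ∀ p ∉ ({P2, P3} : Finset Nat.Primes), c (p : ℕ) = 1 := by
    intro p hp
    simp only [mem_insert, mem_singleton, not_or] at hp
    exact hc _ (fun h => hp.1 (Subtype.ext h)) (fun h => hp.2 (Subtype.ext h))
  refine ⟨multipliable_of_ne_finset_one h, ?_⟩
  have hne : P2 ≠ P3 := by decide
  rw [tprod_eq_prod h, prod_pair hne]
  rfl

lemma prod235 (c : ℕ → ℝ) (hc : ∀ p : ℕ, p ≠ 2 → p ≠ 3 → p ≠ 5 → c p = 1) :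
    Multipliable (fun p : Nat.Primes => c (p : ℕ)) ∧ ∏' p : Nat.Primes, c (p : ℕ) = c 2 * (c 3 * c 5) := by
  have h : ∀ p ∉ ({P2, P3, P5} : Finset Nat.Primes), c (p : ℕ) = 1 := by
    intro p hp
    simp only [mem_insert, mem_singleton, not_or] at hp
    exact hc _ (fun h => hp.1 (Subtype.ext h)) (fun h => hp.2.1 (Subtype.ext h)) (fun h => hp.2.2 (Subtype.ext h))
  refine ⟨multipliable_of_ne_finset_one h, ?_⟩
  have hne : P3 ≠ P5 := by decide
  have hne' : P2 ∉ ({P3, P5} : Finset Nat.Primes) := by decide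
  rw [tprod_eq_prod h, prod_insert hne', prod_pair hne]
  rfl

lemma gE_mult : Multipliable (fun p : Nat.Primes => gE (p : ℕ)) := by
  apply Real.multipliable_of_summable_log (f := fun p : Nat.Primes => gE (p : ℕ)) (fun p => gE_pos p p.2)
  have e1 : Fp {0, 2, 6, 8} = Set.indicator {p : ℕ | p.Prime} (fun n => Real.log (fac {0, 2, 6, 8} n)) := by
    ext n
    unfold Fp
    rw [Set.indicator_apply]
    rfl
  have h2 : Summable (fun p : Nat.Primes => Real.log (fac {0, 2, 6, 8} (p : ℕ))) := by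
    have h3 := Fp_summable {0, 2, 6, 8}
    rw [e1] at h3
    exact (summable_subtype_iff_indicator).2 h3
  have h4 : Summable (fun p : Nat.Primes => Real.log (if (p : ℕ) = 2 then (8 : ℝ) else if (p : ℕ) = 3 then 27 / 16 else 1)) := by
    apply summable_of_ne_finset_zero (s := {P2, P3})
    intro p hp
    simp only [mem_insert, mem_singleton, not_or] at hp
    have n2 : (p : ℕ) ≠ 2 := fun h => hp.1 (Subtype.ext h)
    have n3 : (p : ℕ) ≠ 3 := fun h => hp.2 (Subtype.ext h)
    rw [if_neg n2, if_neg n3, Real.log_one]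
  refine (h2.sub h4).congr fun p => ?_
  rw [facA p p.2, Real.log_mul (gE_pos p p.2).ne' (by split_ifs <;> norm_num)]
  ring

lemma SSA : SSQ {0, 2, 6, 8} = EE := by
  unfold SSQ EE
  have h1 := prod23 (fun p => if p = 2 then (8 : ℝ) else if p = 3 then 27 / 16 else 1) (fun p h2 h3 => by
    rw [if_neg h2, if_neg h3])
  have h2 : (fun p : Nat.Primes => fac {0, 2, 6, 8} (p : ℕ)) = fun p : Nat.Primes =>
      gE (p : ℕ) * (if (p : ℕ) = 2 then (8 : ℝ) else if (p : ℕ) = 3 then 27 / 16 else 1) :=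
    funext fun p => facA p p.2
  rw [h2, gE_mult.tprod_mul h1.1, h1.2]
  norm_num
  ring

lemma SSB : SSQ {0, 4, 6, 10} = 2 * EE := by
  unfold SSQ EE
  have h1 := prod235 (fun p => if p = 2 then (8 : ℝ) else if p = 3 then 27 / 16 else if p = 5 then 2 else 1)
    (fun p h2 h3 h5 => by rw [if_neg h2, if_neg h3, if_neg h5])
  have h2 : (fun p : Nat.Primes => fac {0, 4, 6, 10} (p : ℕ)) = fun p : Nat.Primes =>
      gE (p : ℕ) * (if (p : ℕ) = 2 then (8 : ℝ) else if (p : ℕ) = 3 then 27 / 16 else if (p : ℕ) = 5 then 2 else 1) :=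
    funext fun p => facB p p.2
  rw [h2, gE_mult.tprod_mul h1.1, h1.2]
  norm_num
  ring

lemma EE_pos : 0 < EE := by
  rw [← SSA, SSQ_exp]
  · exact Real.exp_pos _
  · intro p hp
    rcases Nat.lt_or_ge p 11 with h | h
    · rcases small_primes p hp h with rfl | rfl | rfl | rfl <;> decide
    · have : nuQ {0, 2, 6, 8} p ≤ ({0, 2, 6, 8} : Finset ℕ).card := nuQ_le _ _
      rw [card0268] at this
      omega

end Pool.Agent.Helper82K9.PW
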