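import Pool.Agent.Helper82K9.PW.PW1
import Pool.Agent.Helper82K9.PV.PV9

set_option autoImplicit false

/-! The first absolute moments over a residue class and the total error over all increasing tuples of shifts. -/

namespace Pool.Agent.Helper82K9.PW

open Finset Filter Pool.Agent.Helper82K9.PR Pool.Agent.Helper82K9.PV Pool.Agent.Helper32K9.QB

lemma Fr_hQ {d : ℕ} (L : ℝ) (v : Fin (d + 1) → ℤ) (n : ℕ) (Q : Finset ℕ) :
    Fr L (fun i => n + hQ Q i) v = FQ L v n Q := prod_hQ Q (fun q => om L (pv v (n + q)))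

lemma Rr_hQ {d : ℕ} (z : ℕ) (v : Fin (d + 1) → ℤ) (n : ℕ) (Q : Finset ℕ) :
    Rr z (fun i => n + hQ Q i) v = RQ z v n Q := prod_hQ Q (fun q => MM (primorial z) (pv v (n + q)))

lemma apart_card {r : ℕ} (h : Fin r → ℕ) (M : Finset ℕ) (m : ℕ) :
    (M.filter (fun m' => ¬ Apart (fun i => m + h i) (fun i => m' + h i))).card ≤ r ^ 2 := by
  have hsub : M.filter (fun m' => ¬ Apart (fun i => m + h i) (fun i => m' + h i)) ⊆
      (univ : Finset (Fin r × Fin r)).image (fun p => m + h p.1 - h p.2) := by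
    intro m' hm'
    have h1 := (mem_filter.1 hm').2
    unfold Apart at h1
    push Not at h1
    obtain ⟨i, j, hij⟩ := h1
    rw [mem_image]
    exact ⟨(i, j), mem_univ _, by simp only; omega⟩
  refine (card_le_card hsub).trans (card_image_le.trans ?_)
  rw [card_univ, Fintype.card_prod, Fintype.card_fin, pow_two]

theorem absC (K0 d B0 : ℕ) (hd : 2 * K0 ≤ d + 1) (ε : ℝ) (hε : 0 < ε) : ∃ A : ℕ, 3 ≤ A ∧ ∀ H : ℕ, A ≤ H → ∀ x : ℕ,
    ∀ Q : Finset ℕ, (∀ q ∈ Q, q ≤ x) → Q.card ≤ K0 → A * Real.log H ^ Q.card ≤ x → (x : ℝ) ≤ Real.log H ^ B0 →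
    ∀ w : ℕ → ℝ, (∀ n, |w n| ≤ 1) → ∀ P : Fin (d + 1) → ℤ,
    ∑ v ∈ Cl d H (primorial (zH H)) P, |∑ n ∈ Icc 1 x, w n * (FQ (Real.log H) v n Q - RQ (zH H) P n Q)| ≤
      ε * (x + ∑ n ∈ Icc 1 x, RQ (zH H) P n Q) * (Cl d H (primorial (zH H)) P).card := by
  have hex : ∀ k : ℕ, ∃ A : ℕ, 3 ≤ A ∧ (k ≤ K0 → ∀ H : ℕ, A ≤ H → ∀ (M : Finset ℕ) (t : ℕ → Fin k → ℕ),
    (∀ m ∈ M, Function.Injective (t m) ∧ ∀ a, 1 ≤ t m a ∧ (t m a : ℝ) ≤ Real.log H ^ (B0 + 1)) →
    (∀ m ∈ M, (M.filter (fun m' => ¬ Apart (t m) (t m'))).card ≤ k ^ 2) → A * Real.log H ^ k ≤ M.card →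
    ∀ c : ℕ → ℝ, (∀ m, |c m| ≤ 1) → ∀ P : Fin (d + 1) → ℤ,
    ∑ v ∈ Cl d H (primorial (zH H)) P, (∑ m ∈ M, c m * (Fr (Real.log H) (t m) v - Rr (zH H) (t m) P)) ^ 2 ≤
      ε ^ 2 * (M.card + ∑ m ∈ M, |c m| * Rr (zH H) (t m) P) ^ 2 * (Cl d H (primorial (zH H)) P).card) := by
    intro k
    by_cases hk : k ≤ K0
    · obtain ⟨A, hA, h1⟩ := genM k d (B0 + 1) (k ^ 2) (by omega) (ε ^ 2) (by positivity)
      exact ⟨A, hA, fun _ H hH M t => h1 H hH ℕ M t⟩
    · exact ⟨3, le_rfl, fun h1 => absurd h1 hk⟩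
  choose A hA3 hA using hex
  set A1 := (range (K0 + 1)).sup A with hA1
  have hlog : Tendsto (fun n : ℕ => Real.log n) atTop atTop := Real.tendsto_log_atTop.comp tendsto_natCast_atTop_atTop
  obtain ⟨H1, hH1⟩ := (hlog.eventually_ge_atTop (2 : ℝ)).exists_forall_of_atTop
  refine ⟨max (max A1 H1) 3, le_max_right _ _, fun H hH x Q hQx hQK hAx hxB w hw P => ?_⟩
  have hAQ : A Q.card ≤ A1 := le_sup (f := A) (mem_range.2 (by omega))
  have hL := hH1 H ((le_max_right _ _).trans ((le_max_left _ _).trans hH))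
  have hA1m : A Q.card ≤ max (max A1 H1) 3 := hAQ.trans ((le_max_left _ _).trans (le_max_left _ _))
  have hHA : A Q.card ≤ H := hA1m.trans hH
  set L := Real.log H with hLdef
  have hL0 : 0 < L := by linarith
  have hxr : (0 : ℝ) ≤ x := Nat.cast_nonneg _
  have hcard : ((Icc 1 x).card : ℝ) = x := by rw [Nat.card_Icc, Nat.add_sub_cancel]
  have h1 := hA Q.card hQK H hHA (Icc 1 x) (fun n i => n + hQ Q i)
    (by
      intro n hn
      rw [mem_Icc] at hn
      refine ⟨fun i j hij => hQ_inj Q (by simpa using hij), fun i => ⟨by omega, ?_⟩⟩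
      have h2 := hQx _ (hQ_mem Q i)
      have h3 : ((n + hQ Q i : ℕ) : ℝ) ≤ 2 * x := by
        have : n + hQ Q i ≤ 2 * x := by omega
        exact_mod_cast this
      refine h3.trans ?_
      rw [pow_succ]
      have h4 : (0 : ℝ) ≤ L ^ B0 := by positivity
      nlinarith)
    (fun n _ => apart_card (hQ Q) _ n) (by
      rw [hcard]
      refine le_trans ?_ hAx
      apply mul_le_mul_of_nonneg_right _ (by positivity)
      exact_mod_cast hA1m) w hw P
  simp only [Fr_hQ, Rr_hQ, hcard] at h1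
  set C := Cl d H (primorial (zH H)) P with hC
  set N : ℝ := (C.card : ℝ) with hN
  have hN0 : 0 ≤ N := Nat.cast_nonneg _
  have hR0 : 0 ≤ ∑ n ∈ Icc 1 x, RQ (zH H) P n Q := sum_nonneg fun n _ => RQ_nonneg _ _ _ _
  have hwR : ∑ n ∈ Icc 1 x, |w n| * RQ (zH H) P n Q ≤ ∑ n ∈ Icc 1 x, RQ (zH H) P n Q :=
    sum_le_sum fun n _ => mul_le_of_le_one_left (RQ_nonneg _ _ _ _) (hw n)
  have hwR0 : 0 ≤ ∑ n ∈ Icc 1 x, |w n| * RQ (zH H) P n Q :=
    sum_nonneg fun n _ => mul_nonneg (abs_nonneg _) (RQ_nonneg _ _ _ _)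
  have h2 : (∑ v ∈ C, |∑ n ∈ Icc 1 x, w n * (FQ L v n Q - RQ (zH H) P n Q)|) ^ 2 ≤
      (ε * (x + ∑ n ∈ Icc 1 x, RQ (zH H) P n Q) * N) ^ 2 := by
    refine (sq_sum_le_card_mul_sum_sq).trans ?_
    simp only [sq_abs]
    calc _ ≤ N * (ε ^ 2 * (x + ∑ n ∈ Icc 1 x, |w n| * RQ (zH H) P n Q) ^ 2 * N) := mul_le_mul_of_nonneg_left h1 hN0
      _ ≤ N * (ε ^ 2 * (x + ∑ n ∈ Icc 1 x, RQ (zH H) P n Q) ^ 2 * N) := by gcongr
      _ = _ := by ring
  exact le_of_sq_le_sq h2 (by positivity)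

lemma sumRT {d : ℕ} (z : ℕ) (P : Fin (d + 1) → ℤ) (j M x : ℕ) (S0 : ℝ) (hS0 : 0 ≤ S0)
    (h1 : ∀ n, ∑ t ∈ Ioo 0 (M + 1), rh z P (n + t) ≤ S0 * M) (h2 : ∑ n ∈ Icc 1 x, rh z P n ≤ S0 * x) :
    ∑ u ∈ powersetCard j (Ioo 0 (M + 1)), ∑ n ∈ Icc 1 x, RT z P n (insert 0 u) ≤ S0 ^ (j + 1) * M ^ j * x := by
  rw [sum_comm]
  have h3 : ∀ n ∈ Icc 1 x, ∑ u ∈ powersetCard j (Ioo 0 (M + 1)), RT z P n (insert 0 u) ≤ rh z P n * (S0 * M) ^ j := by
    intro n _
    have h4 : ∀ u ∈ powersetCard j (Ioo 0 (M + 1)), RT z P n (insert 0 u) = rh z P n * ∏ t ∈ u, rh z P (n + t) := by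
      intro u hu
      have h5 : 0 ∉ u := by
        intro h
        have := (mem_Ioo.1 ((mem_powersetCard.1 hu).1 h)).1
        omega
      rw [RT_PP]
      unfold PP
      rw [prod_insert h5, add_zero]
    rw [sum_congr rfl h4, ← mul_sum]
    apply mul_le_mul_of_nonneg_left _ (rh_nonneg z P n)
    have h6 := es_le (fun t => rh z P (n + t)) (fun t => rh_nonneg z P (n + t)) (Ioo 0 (M + 1)) j
    unfold es at h6
    refine h6.trans ((div_le_self (by
      have : 0 ≤ ∑ m ∈ Ioo 0 (M + 1), rh z P (n + m) := sum_nonneg fun m _ => rh_nonneg z P _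
      positivity) (by exact_mod_cast j.factorial_pos)).trans ?_)
    exact pow_le_pow_left₀ (sum_nonneg fun m _ => rh_nonneg z P _) (h1 n) j
  refine (sum_le_sum h3).trans ?_
  rw [← sum_mul]
  calc _ ≤ (S0 * x) * (S0 * M) ^ j := mul_le_mul_of_nonneg_right h2 (by positivity)
    _ = _ := by rw [mul_pow]; ring

theorem DC (J d B0 : ℕ) (hd : 4 * (J + 2) ≤ d + 1) (S0 : ℝ) (hS0 : 1 ≤ S0) (ε : ℝ) (hε : 0 < ε) : ∃ A : ℕ, 3 ≤ A ∧
    ∀ H : ℕ, A ≤ H → ∀ x : ℕ, Real.log H ^ (2 * (J + 2) + 1) ≤ x → (x : ℝ) ≤ Real.log H ^ B0 → ∀ M : ℕ,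
    Real.log H ^ 2 ≤ M → M + 2 ≤ x → ∀ j ≤ J, ∀ w : ℕ → ℕ → ℝ, (∀ s n, |w s n| ≤ 1) → ∀ P : Fin (d + 1) → ℤ,
    (∀ n, ∑ t ∈ Ioo 0 (M + 1), rh (zH H) P (n + t) ≤ S0 * M) → (∑ n ∈ Icc 1 x, rh (zH H) P n ≤ S0 * x) →
    ∑ v ∈ Cl d H (primorial (zH H)) P, ∑ s ∈ Ioo 0 (M + 1), ∑ u ∈ powersetCard j (Ioo 0 s),
      |∑ n ∈ Icc 1 x, w s n * (TT (Real.log H) v n (insert 0 (insert s u)) - RT (zH H) P n (insert 0 (insert s u)))| ≤
      ε * (M : ℝ) ^ (j + 1) * x * (Cl d H (primorial (zH H)) P).card := by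
  set K0 := 2 * (J + 2) with hK0
  set ε1 := ε / (4 * S0 ^ (J + 2)) with hε1
  have hS00 : 0 < S0 := by linarith
  have hε10 : 0 < ε1 := by positivity
  obtain ⟨A1, hA13, hA1⟩ := absC K0 d B0 (by omega) ε1 hε10
  obtain ⟨A2, hA23, hA2⟩ := absC K0 d B0 (by omega) 1 one_pos
  set δ := ε / (10 * (J + 1) * (J + 2) ^ (J + 1)) with hδ
  have hδ0 : 0 < δ := by positivity
  obtain ⟨A3, hA33, hA3⟩ := zH_facts d B0 K0 δ hδ0
  have hlog : Tendsto (fun n : ℕ => Real.log n) atTop atTop := Real.tendsto_log_atTop.comp tendsto_natCast_atTop_atTop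
  obtain ⟨A4, hA4⟩ := (hlog.eventually_ge_atTop ((max A1 A2 : ℕ) : ℝ)).exists_forall_of_atTop
  refine ⟨max (max A1 A2) (max A3 A4), (hA13.trans (le_max_left _ _)).trans (le_max_left _ _),
    fun H hH x hx hxB M hLM hMx j hj w hw P hR1 hR2 => ?_⟩
  have g0 : max A1 A2 ≤ H := (le_max_left _ _).trans hH
  obtain ⟨hL2, -, hprim, -, -, hCzK⟩ := hA3 H (((le_max_left _ _).trans (le_max_right _ _)).trans hH)
  have hLA := hA4 H (((le_max_right _ _).trans (le_max_right _ _)).trans hH)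
  set z := zH H with hz
  set L := Real.log H with hLdef
  have hL1 : 1 ≤ L := by linarith
  have hL0 : 0 < L := by linarith
  have hth : ∀ k : ℕ, k ≤ K0 → ((max A1 A2 : ℕ) : ℝ) * L ^ k ≤ x := by
    intro k hk
    refine le_trans ?_ hx
    calc ((max A1 A2 : ℕ) : ℝ) * L ^ k ≤ L * L ^ K0 := by
          apply mul_le_mul hLA (pow_le_pow_right₀ hL1 hk) (by positivity) (by linarith)
      _ = _ := by ring
  have g1 : ∀ Q : Finset ℕ, (∀ q ∈ Q, q ≤ x) → Q.card ≤ K0 → _ := fun Q h1 h2 =>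
    hA1 H ((le_max_left _ _).trans g0) x Q h1 h2 (le_trans (mul_le_mul_of_nonneg_right
      (by exact_mod_cast le_max_left A1 A2) (by positivity)) (hth _ h2)) hxB
  have g2 : ∀ Q : Finset ℕ, (∀ q ∈ Q, q ≤ x) → Q.card ≤ K0 → _ := fun Q h1 h2 =>
    hA2 H ((le_max_right _ _).trans g0) x Q h1 h2 (le_trans (mul_le_mul_of_nonneg_right
      (by exact_mod_cast le_max_right A1 A2) (by positivity)) (hth _ h2)) hxB
  have hM1r : (1 : ℝ) ≤ M := by nlinarith
  have hM0 : (0 : ℝ) < M := by linarith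
  have hM1 : 1 ≤ M := by exact_mod_cast hM1r
  have hLM' : L ≤ M := by nlinarith
  have hCz := Cz_ge z
  have hW1 : (1 : ℝ) ≤ primorial z := by exact_mod_cast primorial_pos z
  have hCzL : Cz z ≤ L := by
    unfold Cz
    refine le_trans (div_le_self (by positivity) ?_) hprim
    exact_mod_cast Nat.totient_pos.2 (primorial_pos z)
  have hCzK' : Cz z ^ K0 ≤ δ * L := by
    refine le_trans ?_ hCzK
    exact le_mul_of_one_le_right (by positivity) hW1
  set C := Cl d H (primorial z) P with hC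
  set N : ℝ := (C.card : ℝ) with hN
  have hN0 : 0 ≤ N := Nat.cast_nonneg _
  have hx0 : (0 : ℝ) ≤ x := Nat.cast_nonneg _
  have hCzK1 : 1 ≤ Cz z ^ K0 := one_le_pow₀ hCz
  -- one tuple
  have hone : ∀ s ∈ Ioo 0 (M + 1), ∀ u ∈ powersetCard j (Ioo 0 s),
      ∑ v ∈ C, |∑ n ∈ Icc 1 x, w s n * (TT L v n (insert 0 (insert s u)) - RT z P n (insert 0 (insert s u)))| ≤
      ε1 * (x + ∑ n ∈ Icc 1 x, RT z P n (insert 0 (insert s u))) * N +
      (if 1 ≤ cc (insert 0 (insert s u)) then L ^ cc (insert 0 (insert s u)) else 0) * (5 * Cz z ^ K0 * x * N) := by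
    intro s hs u hu
    rw [mem_Ioo] at hs
    rw [mem_powersetCard] at hu
    set σ := insert 0 (insert s u) with hσ
    have hσc : σ.card ≤ j + 2 := by
      rw [hσ]
      refine (card_insert_le _ _).trans ?_
      have := card_insert_le s u
      omega
    have hQc : (P2 σ).card ≤ K0 := by
      refine (P2_card σ).trans ?_
      omega
    have hσM : ∀ a ∈ σ, a ≤ M := by
      intro a ha
      rw [hσ, mem_insert, mem_insert] at ha
      rcases ha with ha | ha | ha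
      · omega
      · omega
      · have := (mem_Ioo.1 (hu.1 ha)).2
        omega
    have hQx : ∀ q ∈ P2 σ, q ≤ x := by
      intro q hq
      unfold P2 at hq
      rw [mem_union, mem_image] at hq
      rcases hq with hq | ⟨a, ha, haq⟩
      · have := hσM q hq
        omega
      · have := hσM a ha
        omega
    have hRT0 : 0 ≤ ∑ n ∈ Icc 1 x, RT z P n σ := sum_nonneg fun n _ => RT_nonneg _ _ _ _
    by_cases hcc : 1 ≤ cc σ
    · rw [if_pos hcc]
      have h3 := g2 (P2 σ) hQx hQc (fun _ => 1) (fun _ => by simp) P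
      have hRQ : ∑ n ∈ Icc 1 x, RQ z P n (P2 σ) ≤ Cz z ^ K0 * x := by
        calc ∑ n ∈ Icc 1 x, RQ z P n (P2 σ) ≤ ∑ _n ∈ Icc 1 x, Cz z ^ K0 := by
              apply sum_le_sum
              intro n _
              calc RQ z P n (P2 σ) ≤ ∏ _q ∈ P2 σ, Cz z :=
                    Finset.prod_le_prod (fun _ _ => MM_nonneg _ _) (fun _ _ => MM_le_Cz _ _)
                _ = Cz z ^ (P2 σ).card := by rw [prod_const]
                _ ≤ _ := pow_le_pow_right₀ hCz hQc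
          _ = _ := by rw [sum_const, Nat.card_Icc, Nat.add_sub_cancel, nsmul_eq_mul]; ring
      have h4 : ∑ v ∈ C, |∑ n ∈ Icc 1 x, w s n * (TT L v n σ - RT z P n σ)| ≤
          L ^ cc σ * (∑ v ∈ C, |∑ n ∈ Icc 1 x, 1 * (FQ L v n (P2 σ) - RQ z P n (P2 σ))| + 2 * (Cz z ^ K0 * x) * N) := by
        have e2 : 2 * (Cz z ^ K0 * x) * N = ∑ _v ∈ C, 2 * (Cz z ^ K0 * x) := by
          rw [sum_const, nsmul_eq_mul]; ring
        rw [e2, ← sum_add_distrib, mul_sum]
        apply sum_le_sum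
        intro v _
        have h7 : Cz z ^ cc σ ≤ L ^ cc σ := pow_le_pow_left₀ (by linarith) hCzL _
        have h8 : 0 ≤ Cz z ^ cc σ := by positivity
        calc |∑ n ∈ Icc 1 x, w s n * (TT L v n σ - RT z P n σ)| ≤
              ∑ n ∈ Icc 1 x, L ^ cc σ * (FQ L v n (P2 σ) + RQ z P n (P2 σ)) := by
              refine (abs_sum_le_sum_abs _ _).trans ?_
              apply sum_le_sum
              intro n _
              rw [abs_mul, TT_eq, RT_eq]
              have h5 := FQ_nonneg hL0.le v n (P2 σ)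
              have h6 := RQ_nonneg z P n (P2 σ)
              calc |w s n| * |L ^ cc σ * FQ L v n (P2 σ) - Cz z ^ cc σ * RQ z P n (P2 σ)| ≤
                    1 * (L ^ cc σ * FQ L v n (P2 σ) + Cz z ^ cc σ * RQ z P n (P2 σ)) := by
                    apply mul_le_mul (hw s n) _ (abs_nonneg _) zero_le_one
                    rw [abs_le]
                    have h9 : 0 ≤ L ^ cc σ * FQ L v n (P2 σ) := by positivity
                    have h10 : 0 ≤ Cz z ^ cc σ * RQ z P n (P2 σ) := by positivity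
                    constructor <;> linarith
                _ ≤ 1 * (L ^ cc σ * FQ L v n (P2 σ) + L ^ cc σ * RQ z P n (P2 σ)) := by gcongr
                _ = _ := by ring
          _ = L ^ cc σ * (∑ n ∈ Icc 1 x, 1 * (FQ L v n (P2 σ) - RQ z P n (P2 σ)) + 2 * ∑ n ∈ Icc 1 x, RQ z P n (P2 σ)) := by
              rw [← mul_sum]
              congr 1
              simp only [one_mul, sum_sub_distrib, sum_add_distrib]
              ring
          _ ≤ _ := by
              apply mul_le_mul_of_nonneg_left _ (by positivity)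
              have := le_abs_self (∑ n ∈ Icc 1 x, 1 * (FQ L v n (P2 σ) - RQ z P n (P2 σ)))
              linarith
      have h6 : 0 ≤ ε1 * (x + ∑ n ∈ Icc 1 x, RT z P n σ) * N := by positivity
      have h9 : ∑ v ∈ C, |∑ n ∈ Icc 1 x, 1 * (FQ L v n (P2 σ) - RQ z P n (P2 σ))| ≤ 2 * (Cz z ^ K0 * x) * N := by
        refine h3.trans ?_
        apply mul_le_mul_of_nonneg_right _ hN0
        have : (x : ℝ) ≤ Cz z ^ K0 * x := le_mul_of_one_le_left hx0 hCzK1
        linarith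
      have h10 : 0 ≤ Cz z ^ K0 * x * N := by positivity
      calc _ ≤ L ^ cc σ * (2 * (Cz z ^ K0 * x) * N + 2 * (Cz z ^ K0 * x) * N) :=
            h4.trans (mul_le_mul_of_nonneg_left (by linarith) (by positivity))
        _ ≤ L ^ cc σ * (5 * Cz z ^ K0 * x * N) := by
            apply mul_le_mul_of_nonneg_left _ (by positivity)
            linarith
        _ ≤ _ := by linarith
    · rw [if_neg hcc, zero_mul, add_zero]
      have hcc0 : cc σ = 0 := by omega
      have h3 := g1 (P2 σ) hQx hQc (w s) (hw s) P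
      have e1 : ∀ n, RT z P n σ = RQ z P n (P2 σ) := by
        intro n
        rw [RT_eq, hcc0, pow_zero, one_mul]
      simp only [e1]
      refine le_trans (le_of_eq ?_) h3
      apply sum_congr rfl
      intro v _
      congr 1
      apply sum_congr rfl
      intro n _
      rw [TT_eq, hcc0, pow_zero, one_mul]
  rw [sum_comm]
  have hpc : ((powersetCard (j + 1) (Ioo 0 (M + 1))).card : ℝ) ≤ (M : ℝ) ^ (j + 1) := by
    rw [card_powersetCard, Nat.card_Ioo]
    have h1 : (M + 1 - 0 - 1).choose (j + 1) ≤ M ^ (j + 1) := by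
      have := Nat.choose_le_pow (M + 1 - 0 - 1) (j + 1)
      simpa using this
    exact_mod_cast h1
  calc ∑ s ∈ Ioo 0 (M + 1), ∑ v ∈ C, ∑ u ∈ powersetCard j (Ioo 0 s),
      |∑ n ∈ Icc 1 x, w s n * (TT L v n (insert 0 (insert s u)) - RT z P n (insert 0 (insert s u)))|
      = ∑ s ∈ Ioo 0 (M + 1), ∑ u ∈ powersetCard j (Ioo 0 s), ∑ v ∈ C,
      |∑ n ∈ Icc 1 x, w s n * (TT L v n (insert 0 (insert s u)) - RT z P n (insert 0 (insert s u)))| := by
        apply sum_congr rfl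
        intro s _
        rw [sum_comm]
    _ ≤ ∑ s ∈ Ioo 0 (M + 1), ∑ u ∈ powersetCard j (Ioo 0 s), (ε1 * (x + ∑ n ∈ Icc 1 x, RT z P n (insert 0 (insert s u))) * N +
      (if 1 ≤ cc (insert 0 (insert s u)) then L ^ cc (insert 0 (insert s u)) else 0) * (5 * Cz z ^ K0 * x * N)) :=
        sum_le_sum fun s hs => sum_le_sum fun u hu => hone s hs u hu
    _ = ∑ u ∈ powersetCard (j + 1) (Ioo 0 (M + 1)), (ε1 * (x + ∑ n ∈ Icc 1 x, RT z P n (insert 0 u)) * N +
      (if 1 ≤ cc (insert 0 u) then L ^ cc (insert 0 u) else 0) * (5 * Cz z ^ K0 * x * N)) := by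
        rw [dec (fun u => ε1 * (x + ∑ n ∈ Icc 1 x, RT z P n (insert 0 u)) * N +
          (if 1 ≤ cc (insert 0 u) then L ^ cc (insert 0 u) else 0) * (5 * Cz z ^ K0 * x * N))]
    _ = ε1 * (((powersetCard (j + 1) (Ioo 0 (M + 1))).card : ℝ) * x +
          ∑ u ∈ powersetCard (j + 1) (Ioo 0 (M + 1)), ∑ n ∈ Icc 1 x, RT z P n (insert 0 u)) * N +
        (∑ u ∈ powersetCard (j + 1) (Ioo 0 (M + 1)), if 1 ≤ cc (insert 0 u) then L ^ cc (insert 0 u) else 0) *
          (5 * Cz z ^ K0 * x * N) := by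
        rw [sum_add_distrib, sum_mul]
        congr 1
        rw [← sum_mul, ← mul_sum, sum_add_distrib, sum_const, nsmul_eq_mul]
    _ ≤ ε1 * ((M : ℝ) ^ (j + 1) * x + S0 ^ (j + 2) * M ^ (j + 1) * x) * N +
        (((j + 1 : ℕ) : ℝ) * ((J + 2 : ℕ) * M) ^ (j + 1) * L / M) * (5 * Cz z ^ K0 * x * N) := by
        have h1 := sumRT z P (j + 1) M x S0 hS00.le hR1 hR2
        have h2 := (XY (J + 2) M L hL1 hLM' (j + 1) (by omega) (M + 1) le_rfl).2
        rw [← le_div_iff₀ hM0] at h2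
        gcongr
    _ ≤ ε / 2 * M ^ (j + 1) * x * N + ε / 2 * M ^ (j + 1) * x * N := by
        apply add_le_add
        · have h1 : S0 ^ (j + 2) ≤ S0 ^ (J + 2) := pow_le_pow_right₀ hS0 (by omega)
          have h2 : 1 ≤ S0 ^ (J + 2) := one_le_pow₀ hS0
          have h3 : 0 ≤ (M : ℝ) ^ (j + 1) * x := by positivity
          have h4 : (M : ℝ) ^ (j + 1) * x + S0 ^ (j + 2) * M ^ (j + 1) * x ≤ 2 * S0 ^ (J + 2) * ((M : ℝ) ^ (j + 1) * x) := by
            have h5 : (M : ℝ) ^ (j + 1) * x ≤ S0 ^ (J + 2) * ((M : ℝ) ^ (j + 1) * x) := le_mul_of_one_le_left h3 h2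
            have h6 : S0 ^ (j + 2) * ((M : ℝ) ^ (j + 1) * x) ≤ S0 ^ (J + 2) * ((M : ℝ) ^ (j + 1) * x) :=
              mul_le_mul_of_nonneg_right h1 h3
            linarith
          calc _ ≤ ε1 * (2 * S0 ^ (J + 2) * ((M : ℝ) ^ (j + 1) * x)) * N := by gcongr
            _ = _ := by
                rw [hε1]
                field_simp
                ring
        · have h1 : (((j + 1 : ℕ) : ℝ) * ((J + 2 : ℕ) * M) ^ (j + 1) * L / M) * (5 * Cz z ^ K0) ≤ ε / 2 * M ^ (j + 1) := by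
            have h2 : (((j + 1 : ℕ) : ℝ)) ≤ J + 1 := by exact_mod_cast (by omega : j + 1 ≤ J + 1)
            have h3 : (((J + 2 : ℕ) : ℝ)) ^ (j + 1) ≤ ((J : ℝ) + 2) ^ (J + 1) := by
              push_cast
              apply pow_le_pow_right₀ _ (by omega)
              have : (0 : ℝ) ≤ J := Nat.cast_nonneg _
              linarith
            have h4 : L * L / M ≤ 1 := by
              rw [div_le_one hM0]
              nlinarith
            calc (((j + 1 : ℕ) : ℝ) * ((J + 2 : ℕ) * M) ^ (j + 1) * L / M) * (5 * Cz z ^ K0) =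
                  ((j + 1 : ℕ) : ℝ) * (((J + 2 : ℕ) : ℝ) ^ (j + 1)) * M ^ (j + 1) * 5 * (L * Cz z ^ K0 / M) := by
                  rw [mul_pow]; ring
              _ ≤ (J + 1) * ((J : ℝ) + 2) ^ (J + 1) * M ^ (j + 1) * 5 * (L * (δ * L) / M) := by gcongr
              _ = (J + 1) * ((J : ℝ) + 2) ^ (J + 1) * M ^ (j + 1) * 5 * δ * (L * L / M) := by ring
              _ ≤ (J + 1) * ((J : ℝ) + 2) ^ (J + 1) * M ^ (j + 1) * 5 * δ * 1 := by gcongr
              _ = ε / 2 * M ^ (j + 1) := by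
                  rw [hδ]
                  field_simp
                  ring
          calc _ = ((((j + 1 : ℕ) : ℝ) * ((J + 2 : ℕ) * M) ^ (j + 1) * L / M) * (5 * Cz z ^ K0)) * (x * N) := by ring
            _ ≤ (ε / 2 * M ^ (j + 1)) * (x * N) := mul_le_mul_of_nonneg_right h1 (by positivity)
            _ = _ := by ring
    _ = _ := by ring

end Pool.Agent.Helper82K9.PW
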