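import Pool.Agent.Helper82K9.PW.PW2

set_option autoImplicit false

/-! The residues of consecutive elements for almost all polynomials in a residue class. -/

namespace Pool.Agent.Helper82K9.PW

open Finset Filter Pool.Agent.Helper82K9.PR Pool.Agent.Helper82K9.PV Pool.Agent.Helper32K9.QB

open Classical in
theorem nextK (q : ℕ) (hq : 1 ≤ q) (S0 : ℝ) (hS01 : 1 ≤ S0) (ε : ℝ) (hε : 0 < ε) : ∃ D : ℕ, ∀ d : ℕ, D ≤ d → ∀ B0 : ℕ,
    ∃ A : ℕ, 3 ≤ A ∧ ∀ H : ℕ, A ≤ H → ∀ x : ℕ, Real.log H ^ D ≤ x → (x : ℝ) ≤ Real.log H ^ B0 → ∀ P : Fin (d + 1) → ℤ,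
    dens0 (rh (zH H) P) (q * primorial (zH H)) ≤ S0 →
    (((Cl d H (primorial (zH H)) P).filter (fun v => ¬ ∀ a < q, ∀ b < q,
      |Real.log H ^ 2 * nextC (Tw v) q a b x - dens (rh (zH H) P) (q * primorial (zH H)) q a *
        dens (rh (zH H) P) (q * primorial (zH H)) q b / dens0 (rh (zH H) P) (q * primorial (zH H)) * x| ≤ ε * x ∧
      |Real.log H ^ 2 * allC (Tw v) q a x - dens (rh (zH H) P) (q * primorial (zH H)) q a * x| ≤ ε * x)).card : ℝ) ≤
      ε * (Cl d H (primorial (zH H)) P).card := by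
  have hqr : (1 : ℝ) ≤ q := by exact_mod_cast hq
  set ε1 := min ε 1 with hε1
  have hε10 : 0 < ε1 := lt_min hε one_pos
  have hε1ε : ε1 ≤ ε := min_le_left _ _
  have hε11 : ε1 ≤ 1 := min_le_right _ _
  set e1 := ε1 / (q + 1) with he1
  have he10 : 0 < e1 := by positivity
  have he1ε : (q + 1) * e1 = ε1 := by rw [he1]; field_simp
  have he11 : e1 ≤ ε1 := by
    rw [he1]
    apply div_le_self hε10.le
    linarith
  have hS00 : 0 < S0 := by linarith
  -- the length of the gaps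
  obtain ⟨lam, hlam1, hlam⟩ : ∃ lam : ℕ, 1 ≤ lam ∧ Real.exp (-(lam * e1)) ≤ e1 / (16 * S0) := by
    have h1 : Tendsto (fun n : ℕ => Real.exp (-((n : ℝ) * e1))) atTop (nhds 0) := by
      apply Real.tendsto_exp_neg_atTop_nhds_zero.comp
      exact tendsto_natCast_atTop_atTop.atTop_mul_const he10
    have h2 := h1.eventually (ge_mem_nhds (show (0 : ℝ) < e1 / (16 * S0) by positivity))
    obtain ⟨n, h3, h4⟩ := (h2.and (eventually_ge_atTop 1)).exists
    exact ⟨n, h4, h3⟩
  set Θ : ℝ := (lam + 2) * S0 with hΘ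
  have hΘ0 : 0 < Θ := by positivity
  obtain ⟨I, hI⟩ : ∃ I : ℕ, Θ ^ (2 * I + 3) / ((2 * I + 2).factorial : ℝ) * (2 * S0) ≤ e1 / 4 := by
    have h1 := FloorSemiring.tendsto_pow_div_factorial_atTop Θ
    have h2 := h1.eventually (ge_mem_nhds (show (0 : ℝ) < e1 / (8 * S0 * Θ) by positivity))
    obtain ⟨n0, hn0⟩ := h2.exists_forall_of_atTop
    refine ⟨n0, ?_⟩
    have h3 := hn0 (2 * n0 + 2) (by omega)
    calc Θ ^ (2 * n0 + 3) / ((2 * n0 + 2).factorial : ℝ) * (2 * S0) =
          (Θ ^ (2 * n0 + 2) / ((2 * n0 + 2).factorial : ℝ)) * (Θ * (2 * S0)) := by ring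
      _ ≤ (e1 / (8 * S0 * Θ)) * (Θ * (2 * S0)) := mul_le_mul_of_nonneg_right h3 (by positivity)
      _ = e1 / 4 := by field_simp; ring
  set e2 := e1 / (4 * ((2 * I + 2) * ((lam : ℝ) + 1) ^ (2 * I + 2))) with he2
  have he20 : 0 < e2 := by positivity
  set e3 := e2 * (ε1 / (4 * (q ^ 2 * (2 * I + 2)))) with he3
  have he30 : 0 < e3 := by positivity
  set e4 := e1 / 2 * (ε1 / (4 * q)) / (3 * S0) with he4
  have he40 : 0 < e4 := by positivity
  refine ⟨8 * I + 12, fun d hd B0 => ?_⟩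
  obtain ⟨A1, hA13, hA1⟩ := DC (2 * I + 1) d B0 (by omega) (2 * S0) (by linarith) e3 he30
  obtain ⟨A2, hA23, hA2⟩ := absC 2 d B0 (by omega) e4 he40
  set δ := e1 / (16 * S0 ^ 2 * q) with hδ
  have hδ0 : 0 < δ := by positivity
  obtain ⟨A4, hA43, hA4⟩ := zH_facts d B0 2 δ hδ0
  have hlog : Tendsto (fun n : ℕ => Real.log n) atTop atTop := Real.tendsto_log_atTop.comp tendsto_natCast_atTop_atTop
  obtain ⟨A5, hA5⟩ := (hlog.eventually_ge_atTop ((lam : ℝ) + q + 5 + 16 * S0 ^ 2 * q / e1 + A2)).exists_forall_of_atTop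
  refine ⟨max (max A1 A2) (max A4 A5), (hA13.trans (le_max_left _ _)).trans (le_max_left _ _),
    fun H hH x hx hxB P0 hP0 => ?_⟩
  have g1 := hA1 H (((le_max_left _ _).trans (le_max_left _ _)).trans hH)
  have g2 := hA2 H (((le_max_right _ _).trans (le_max_left _ _)).trans hH)
  obtain ⟨hL2, -, hprim, -, -, hCzK⟩ := hA4 H (((le_max_left _ _).trans (le_max_right _ _)).trans hH)
  have hLbig := hA5 H (((le_max_right _ _).trans (le_max_right _ _)).trans hH)
  have hA20 : (0 : ℝ) ≤ A2 := Nat.cast_nonneg _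
  set z := zH H with hz
  set L := Real.log H with hLdef
  have hL1 : 1 ≤ L := by linarith
  have hL0 : 0 < L := by linarith
  have hlamr : (1 : ℝ) ≤ lam := by exact_mod_cast hlam1
  have hSq : 0 ≤ 16 * S0 ^ 2 * q / e1 := by positivity
  have hLlam : (lam : ℝ) + 5 ≤ L := by linarith
  have hLq : (q : ℝ) ≤ L := by linarith
  have hLS : 16 * S0 ^ 2 * q / e1 ≤ L := by linarith
  rw [div_le_iff₀ he10] at hLS
  set Λ := L ^ 2 with hΛ
  have hΛ0 : 0 < Λ := by positivity
  have hΛ1 : 1 ≤ Λ := one_le_pow₀ hL1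
  set W := q * primorial z with hW
  have hprim0 : 0 < primorial z := primorial_pos z
  have hW0 : 0 < W := Nat.mul_pos hq hprim0
  have hWL : (W : ℝ) ≤ q * L := by
    rw [hW]; push_cast
    exact mul_le_mul_of_nonneg_left hprim (by linarith)
  have hCz := Cz_ge z
  have hW1 : (1 : ℝ) ≤ primorial z := by exact_mod_cast hprim0
  have hCzL : Cz z ≤ L := by
    unfold Cz
    refine le_trans (div_le_self (by positivity) ?_) hprim
    exact_mod_cast Nat.totient_pos.2 hprim0
  -- the length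
  set M := ⌈(lam : ℝ) * Λ⌉₊ with hM
  have hMl : (lam : ℝ) * Λ ≤ M := Nat.le_ceil _
  have hMu : (M : ℝ) ≤ (lam + 1) * Λ := by
    have := (Nat.ceil_lt_add_one (by positivity : (0 : ℝ) ≤ (lam : ℝ) * Λ)).le
    rw [← hM] at this
    nlinarith
  have hLx5 : L ^ 5 ≤ x := by
    refine le_trans ?_ hx
    exact pow_le_pow_right₀ hL1 (by omega)
  have hL3x : L ^ 3 ≤ x := (pow_le_pow_right₀ hL1 (by norm_num)).trans hLx5
  have hM2x : M + 2 ≤ x := by
    have h1 : (M : ℝ) + 2 ≤ L ^ 3 := by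
      have h2 : L ^ 3 = L * Λ := by rw [hΛ]; ring
      rw [h2]
      have h3 : (lam + 1) * Λ + 2 ≤ (lam + 5) * Λ := by nlinarith
      have h4 : ((lam : ℝ) + 5) * Λ ≤ L * Λ := mul_le_mul_of_nonneg_right hLlam hΛ0.le
      linarith
    have h2 : ((M + 2 : ℕ) : ℝ) ≤ x := by push_cast; linarith
    exact_mod_cast h2
  have hx2 : 2 ≤ x := by omega
  have hx0 : (0 : ℝ) < x := by exact_mod_cast (by omega : 0 < x)
  have hLM : L ^ 2 ≤ M := by
    refine le_trans ?_ hMl
    rw [hΛ]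
    exact le_mul_of_one_le_left (by positivity) hlamr
  set CC := Cl d H (primorial z) P0 with hCC
  set N : ℝ := (CC.card : ℝ) with hN
  have hN0 : 0 ≤ N := Nat.cast_nonneg _
  -- numerical conditions
  have n1 : W * S0 / Λ ≤ e1 / (16 * S0) := by
    rw [div_le_div_iff₀ hΛ0 (by positivity)]
    calc (W : ℝ) * S0 * (16 * S0) ≤ (q * L) * S0 * (16 * S0) := by gcongr
      _ = (16 * S0 ^ 2 * q) * L := by ring
      _ ≤ (L * e1) * L := mul_le_mul_of_nonneg_right hLS hL0.le
      _ = e1 * Λ := by rw [hΛ]; ring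
  have n2 : S0 * W ≤ e1 / 16 * x := by
    have h1 : W * S0 * (16 * S0) ≤ e1 * Λ := by
      rw [div_le_div_iff₀ hΛ0 (by positivity)] at n1
      exact n1
    have h2 : Λ ≤ x := by
      refine le_trans ?_ hLx5
      rw [hΛ]
      exact pow_le_pow_right₀ hL1 (by norm_num)
    have h3 : 16 * (S0 * W) * 1 ≤ 16 * (S0 * W) * S0 := by gcongr
    have h4 : e1 * Λ ≤ e1 * x := mul_le_mul_of_nonneg_left h2 he10.le
    linarith
  have n3 : Real.exp (-(M * e1 / Λ)) ≤ e1 / (16 * S0) := by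
    refine le_trans ?_ hlam
    apply Real.exp_le_exp.2
    rw [neg_le_neg_iff, le_div_iff₀ hΛ0]
    calc (lam : ℝ) * e1 * Λ = (lam * Λ) * e1 := by ring
      _ ≤ M * e1 := mul_le_mul_of_nonneg_right hMl he10.le
  have hWΛ : (W : ℝ) ≤ Λ := by
    refine hWL.trans ?_
    rw [hΛ, pow_two]
    exact mul_le_mul_of_nonneg_right hLq hL0.le
  have n4 : ((M + W) * S0 / Λ) ^ (2 * I + 3) / ((2 * I + 2).factorial : ℝ) * (2 * S0) ≤ e1 / 4 := by
    refine le_trans ?_ hI
    have h1 : (M + W) * S0 / Λ ≤ Θ := by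
      rw [div_le_iff₀ hΛ0, hΘ]
      calc ((M : ℝ) + W) * S0 ≤ ((lam + 1) * Λ + Λ) * S0 := by gcongr
        _ = _ := by ring
    gcongr
  have n5 : ∑ j ∈ range (2 * I + 2), e2 * (M : ℝ) ^ (j + 1) / Λ ^ (j + 1) ≤ e1 / 4 := by
    have h1 : ∀ j ∈ range (2 * I + 2), e2 * (M : ℝ) ^ (j + 1) / Λ ^ (j + 1) ≤ e2 * ((lam : ℝ) + 1) ^ (2 * I + 2) := by
      intro j hj
      rw [mem_range] at hj
      rw [mul_div_assoc, ← div_pow]
      apply mul_le_mul_of_nonneg_left _ he20.le
      have h2 : (M : ℝ) / Λ ≤ lam + 1 := by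
        rw [div_le_iff₀ hΛ0]
        exact hMu
      calc ((M : ℝ) / Λ) ^ (j + 1) ≤ ((lam : ℝ) + 1) ^ (j + 1) := pow_le_pow_left₀ (by positivity) h2 _
        _ ≤ _ := pow_le_pow_right₀ (by linarith) (by omega)
    refine (sum_le_sum h1).trans ?_
    rw [sum_const, card_range, nsmul_eq_mul, he2]
    apply le_of_eq
    push_cast
    field_simp
  -- the sums of the model
  have hWr : (0 : ℝ) < W := by exact_mod_cast hW0
  have hLam : Λ ≤ M := hLM
  have hSeq : ∑ n ∈ range W, rh z P0 n = W * dens0 (rh z P0) W := by unfold dens0; field_simp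
  have hdens0 : 0 ≤ dens0 (rh z P0) W := by
    unfold dens0
    exact div_nonneg (sum_nonneg fun n _ => rh_nonneg z P0 n) hWr.le
  have hms := fun k m => (model_sum (rh z P0) (rh_nonneg z P0) W hW0 (fun n => rh_per z q P0 n) (dens0 (rh z P0) W) hSeq k m).1
  have hsumx : ∑ n ∈ Icc 1 x, rh z P0 n ≤ 2 * S0 * x := by
    have h3 : Icc 1 x = Ioc 0 (0 + x) := by
      ext n
      rw [mem_Icc, mem_Ioc]
      omega
    rw [h3]
    refine (hms 0 x).trans ?_
    have h4 : (W : ℝ) ≤ x := by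
      have h5 : Λ ≤ x := by
        refine le_trans ?_ hLx5
        rw [hΛ]
        exact pow_le_pow_right₀ hL1 (by norm_num)
      exact hWΛ.trans h5
    calc ((x : ℝ) + W) * dens0 (rh z P0) W ≤ (x + x) * S0 := by gcongr
      _ = _ := by ring
  have hsumM : ∀ n, ∑ t ∈ Ioo 0 (M + 1), rh z P0 (n + t) ≤ 2 * S0 * M := by
    intro n
    have h3 : ∑ t ∈ Ioo 0 (M + 1), rh z P0 (n + t) = ∑ s ∈ Ioc n (n + M), rh z P0 s := by
      have h4 : Ioc n (n + M) = (Ioo 0 (M + 1)).image (fun t => n + t) := by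
        ext s
        rw [mem_Ioc, mem_image]
        constructor
        · intro h
          exact ⟨s - n, mem_Ioo.2 (by omega), by omega⟩
        · rintro ⟨t, ht, rfl⟩
          rw [mem_Ioo] at ht
          omega
      rw [h4, sum_image (fun a _ b _ hab => by simpa using hab)]
    rw [h3]
    refine (hms n M).trans ?_
    calc ((M : ℝ) + W) * dens0 (rh z P0) W ≤ (M + M) * S0 := by
          have := hWΛ.trans hLam
          gcongr
      _ = _ := by ring
  -- the exceptional sets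
  set F2 : ℕ × ℕ × ℕ → (Fin (d + 1) → ℤ) → ℝ := fun p v => ∑ s ∈ Ioo 0 (M + 1), ∑ u ∈ powersetCard p.2.2 (Ioo 0 s),
      |∑ n ∈ Icc 1 x, ww q p.1 p.2.1 s n * (TT L v n (insert 0 (insert s u)) - RT z P0 n (insert 0 (insert s u)))| with hF2
  set E2 : ℕ × ℕ × ℕ → Finset (Fin (d + 1) → ℤ) := fun p => CC.filter (fun v => e2 * (M : ℝ) ^ (p.2.2 + 1) * x < F2 p v)
    with hE2
  set F3 : ℕ → (Fin (d + 1) → ℤ) → ℝ := fun a v => |∑ n ∈ Icc 1 x, (if n % q = a then 1 else 0) *
      (FQ L v n {0, 2} - RQ z P0 n {0, 2})| with hF3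
  set E3 : ℕ → Finset (Fin (d + 1) → ℤ) := fun a => CC.filter (fun v => e1 / 2 * x < F3 a v) with hE3
  have hQ02 : ∀ r ∈ ({0, 2} : Finset ℕ), r ≤ x := by
    intro r hr
    rw [mem_insert, mem_singleton] at hr
    omega
  have hQc : ({0, 2} : Finset ℕ).card = 2 := by decide
  set P := (range q) ×ˢ ((range q) ×ˢ (range (2 * I + 2))) with hP
  have hE2c : ∀ p ∈ P, ((E2 p).card : ℝ) ≤ ε1 / (4 * (q ^ 2 * (2 * I + 2))) * N := by
    intro p hp
    rw [hP, mem_product, mem_product, mem_range, mem_range, mem_range] at hp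
    have h1 := g1 x (by
      refine le_trans ?_ hx
      exact pow_le_pow_right₀ hL1 (by omega)) hxB M hLM hM2x p.2.2 (by omega) (fun s n => ww q p.1 p.2.1 s n) (fun s n => by
      rw [abs_of_nonneg (ww_nonneg _ _ _ _ _)]
      exact ww_le _ _ _ _ _) P0 hsumM hsumx
    refine cheb CC (F2 p) (fun v => sum_nonneg fun s _ => sum_nonneg fun u _ => abs_nonneg _)
      (e2 * (M : ℝ) ^ (p.2.2 + 1) * x) _ ?_ (h1.trans (le_of_eq ?_))
    · have : (0 : ℝ) < M := lt_of_lt_of_le (by positivity) hLM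
      positivity
    · rw [he3]; ring
  have hE3c : ∀ a ∈ range q, ((E3 a).card : ℝ) ≤ ε1 / (4 * q) * N := by
    intro a _
    have h1 := g2 x {0, 2} hQ02 (by rw [hQc]) (by
      rw [hQc]
      refine le_trans ?_ hL3x
      calc (A2 : ℝ) * L ^ 2 ≤ L * L ^ 2 := by
            apply mul_le_mul_of_nonneg_right _ (by positivity)
            linarith
        _ = _ := by ring) hxB (fun n => if n % q = a then 1 else 0)
      (fun n => by split_ifs <;> simp) P0
    refine cheb CC (F3 a) (fun v => abs_nonneg _) (e1 / 2 * x) _ (by positivity) (h1.trans ?_)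
    have h2 : ∑ n ∈ Icc 1 x, RQ z P0 n {0, 2} ≤ 2 * S0 * x := by
      refine le_trans (le_of_eq ?_) hsumx
      apply sum_congr rfl
      intro n _
      rw [rh_RQ]
    have h3 : (x : ℝ) + ∑ n ∈ Icc 1 x, RQ z P0 n {0, 2} ≤ 3 * S0 * x := by
      have : (x : ℝ) ≤ S0 * x := le_mul_of_one_le_left hx0.le hS01
      linarith
    calc e4 * (x + ∑ n ∈ Icc 1 x, RQ z P0 n {0, 2}) * N ≤ e4 * (3 * S0 * x) * N := by gcongr
      _ = e1 / 2 * x * (ε1 / (4 * q)) * N := by
          rw [he4]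
          field_simp
  have hsub : CC.filter (fun v => ¬ ∀ a < q, ∀ b < q,
      |Λ * nextC (Tw v) q a b x - dens (rh z P0) W q a * dens (rh z P0) W q b / dens0 (rh z P0) W * x| ≤ ε * x ∧
      |Λ * allC (Tw v) q a x - dens (rh z P0) W q a * x| ≤ ε * x) ⊆ P.biUnion E2 ∪ (range q).biUnion E3 := by
    intro v hv
    rw [mem_filter] at hv
    obtain ⟨hvB, hv2⟩ := hv
    by_contra hcon
    rw [mem_union, mem_biUnion, mem_biUnion] at hcon
    push Not at hcon
    obtain ⟨hc2, hc3⟩ := hcon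
    apply hv2
    have k2 : ∀ p ∈ P, F2 p v ≤ e2 * (M : ℝ) ^ (p.2.2 + 1) * x := by
      intro p hp
      by_contra h
      exact hc2 p hp (mem_filter.2 ⟨hvB, not_le.1 h⟩)
    have k3 : ∀ a ∈ range q, F3 a v ≤ e1 / 2 * x := by
      intro a ha
      by_contra h
      exact hc3 a ha (mem_filter.2 ⟨hvB, not_le.1 h⟩)
    have hfin := fin_v (Tw v) (rh z P0) (rh_nonneg z P0) W q hq hW0 (Dvd.intro _ rfl) (fun n => rh_per z q P0 n) Λ hΛ0
      (fun n => (rh_le z P0 n).trans (by
        rw [hΛ]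
        exact pow_le_pow_left₀ (by linarith) hCzL 2)) x M I e1 e2 S0 he10 (he11.trans hε11) hS01 hP0
      (by
        intro a ha b hb j hj
        have h1 := k2 (a, b, j) (by
          rw [hP, mem_product, mem_product]
          exact ⟨mem_range.2 ha, mem_range.2 hb, hj⟩)
        rw [hF2] at h1
        simp only at h1
        refine le_trans (le_of_eq ?_) h1
        apply sum_congr rfl
        intro s _
        apply sum_congr rfl
        intro u _
        congr 1
        apply sum_congr rfl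
        intro n _
        rw [TT_PP, RT_PP])
      (by
        intro a ha
        have h1 := k3 a (mem_range.2 ha)
        rw [hF3] at h1
        simp only at h1
        refine le_trans (le_of_eq ?_) h1
        rw [hΛ, allC_eq, ← sum_sub_distrib]
        congr 1
        apply sum_congr rfl
        intro n _
        rw [rh_RQ]
        split_ifs <;> ring)
      n1 n2 n3 n4 n5
    intro a ha b hb
    obtain ⟨r1, r2⟩ := hfin a ha b hb
    rw [he1ε] at r1
    refine ⟨r1.trans ?_, r2.trans ?_⟩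
    · exact mul_le_mul_of_nonneg_right hε1ε hx0.le
    · exact mul_le_mul_of_nonneg_right (he11.trans hε1ε) hx0.le
  have hq2 : (0 : ℝ) < q ^ 2 * (2 * I + 2) := by positivity
  calc _ ≤ ((P.biUnion E2 ∪ (range q).biUnion E3).card : ℝ) := by exact_mod_cast card_le_card hsub
    _ ≤ ((P.biUnion E2).card : ℝ) + (((range q).biUnion E3).card : ℝ) := by
        exact_mod_cast card_union_le (P.biUnion E2) ((range q).biUnion E3)
    _ ≤ ∑ p ∈ P, ((E2 p).card : ℝ) + ∑ a ∈ range q, ((E3 a).card : ℝ) := by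
        have h1 : ((P.biUnion E2).card : ℝ) ≤ ∑ p ∈ P, ((E2 p).card : ℝ) := by exact_mod_cast card_biUnion_le
        have h2 : (((range q).biUnion E3).card : ℝ) ≤ ∑ a ∈ range q, ((E3 a).card : ℝ) := by exact_mod_cast card_biUnion_le
        linarith
    _ ≤ ∑ p ∈ P, ε1 / (4 * (q ^ 2 * (2 * I + 2))) * N + ∑ a ∈ range q, ε1 / (4 * q) * N := by
        have h1 := sum_le_sum hE2c
        have h2 := sum_le_sum hE3c
        linarith
    _ = 1 / 2 * ε1 * N := by
        rw [sum_const, sum_const, card_range, hP, card_product, card_product, card_range, card_range, nsmul_eq_mul, nsmul_eq_mul]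
        push_cast
        have : (q : ℝ) ≠ 0 := by positivity
        field_simp
        ring
    _ ≤ ε * N := by
        apply mul_le_mul_of_nonneg_right _ hN0
        linarith

end Pool.Agent.Helper82K9.PW
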