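import Pool.Agent.Helper82K9.PW.PW3

set_option autoImplicit false

/-! The local densities of the polynomial `n`. -/

namespace Pool.Agent.Helper82K9.PW

open Finset Filter Pool.Agent.Helper82K9.PR Pool.Agent.Helper82K9.PV Pool.Agent.Helper32K9.QB

/-- the coefficients of the polynomial `n` -/
def idP (d : ℕ) : Fin (d + 1) → ℤ := fun i => if (i : ℕ) = 1 then 1 else 0

lemma pv_idP (d : ℕ) (hd : 1 ≤ d) (n : ℕ) : pv (idP d) n = n := by
  unfold pv idP
  rw [sum_eq_single (⟨1, by omega⟩ : Fin (d + 1))]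
  · simp
  · intro b _ hb
    rw [if_neg (fun h => hb (Fin.ext h)), zero_mul]
  · intro h
    exact absurd (mem_univ _) h

lemma crt2 (a b : ℕ) (ha : 0 < a) (hb : 0 < b) (hab : Nat.Coprime a b) (F G : ℕ → ℝ) (hF : ∀ n, F (n % a) = F n)
    (hG : ∀ n, G (n % b) = G n) : ∑ n ∈ range (a * b), F n * G n = (∑ r ∈ range a, F r) * ∑ r ∈ range b, G r := by
  have hinj : ∀ m ∈ range (a * b), ∀ n ∈ range (a * b), (m % a, m % b) = (n % a, n % b) → m = n := by
    intro m hm n hn hmn
    rw [Prod.mk.injEq] at hmn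
    rw [mem_range] at hm hn
    have h3 : m ≡ n [MOD a * b] := (Nat.modEq_and_modEq_iff_modEq_mul hab).1 ⟨hmn.1, hmn.2⟩
    exact Nat.ModEq.eq_of_lt_of_lt h3 hm hn
  have h1 : (range (a * b)).image (fun n => (n % a, n % b)) = range a ×ˢ range b := by
    apply eq_of_subset_of_card_le
    · intro p hp
      rw [mem_image] at hp
      obtain ⟨n, _, rfl⟩ := hp
      rw [mem_product, mem_range, mem_range]
      exact ⟨Nat.mod_lt _ ha, Nat.mod_lt _ hb⟩
    · rw [card_product, card_range, card_range, card_image_of_injOn, card_range]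
      intro m hm n hn hmn
      exact hinj m hm n hn hmn
  rw [sum_mul_sum, ← sum_product', ← h1, sum_image (fun m hm n hn hmn => hinj m hm n hn hmn)]
  apply sum_congr rfl
  intro n _
  rw [hF, hG]

lemma crtS (g : ℕ → ℕ → ℝ) (hg : ∀ p n, g p (n % p) = g p n) (S : Finset ℕ) (hS : ∀ p ∈ S, p.Prime) :
    ∑ n ∈ range (∏ p ∈ S, p), ∏ p ∈ S, g p n = ∏ p ∈ S, ∑ r ∈ range p, g p r := by
  induction S using Finset.induction_on with
  | empty => simp
  | insert p S hp ih =>
    have ih' := ih (fun q hq => hS q (mem_insert_of_mem hq))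
    have hpp := hS p (mem_insert_self _ _)
    have hS0 : 0 < ∏ q ∈ S, q := prod_pos fun q hq => (hS q (mem_insert_of_mem hq)).pos
    have hcop : Nat.Coprime p (∏ q ∈ S, q) := by
      apply Nat.Coprime.prod_right
      intro q hq
      rw [Nat.coprime_primes hpp (hS q (mem_insert_of_mem hq))]
      intro h
      rw [h] at hp
      exact hp hq
    rw [prod_insert hp, prod_insert hp, ← ih', ← crt2 p (∏ q ∈ S, q) hpp.pos hS0 hcop (g p) (fun n => ∏ q ∈ S, g q n) (hg p) (by
      intro n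
      apply prod_congr rfl
      intro q hq
      rw [← hg q (n % ∏ q ∈ S, q), Nat.mod_mod_of_dvd _ (dvd_prod_of_mem _ hq), hg])]
    apply sum_congr rfl
    intro n _
    rw [prod_insert hp]

lemma count_p (p : ℕ) (hp : 0 < p) (Q : Finset ℕ) :
    (((range p).filter (fun r => ∀ q ∈ Q, ¬ p ∣ r + q)).card : ℝ) = p - ((Q.image (fun q => q % p)).card : ℝ) := by
  have h1 := card_filter_add_card_filter_not (s := range p) (fun r => ∀ q ∈ Q, ¬ p ∣ r + q)
  have h2 : (range p).filter (fun r => ¬ ∀ q ∈ Q, ¬ p ∣ r + q) = (Q.image (fun q => q % p)).image (fun s => (p - s) % p) := by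
    ext r
    rw [mem_filter, mem_range, mem_image]
    constructor
    · rintro ⟨hr, h⟩
      push Not at h
      obtain ⟨q, hq, hqr⟩ := h
      refine ⟨q % p, mem_image_of_mem _ hq, ?_⟩
      obtain ⟨c, hc⟩ := hqr
      have h3 := Nat.mod_lt q hp
      have h4 := Nat.div_add_mod q p
      have h5 : r + q % p = p * (c - q / p) := by
        have h6 : q / p ≤ c := by
          by_contra hcon
          push Not at hcon
          have : p * (c + 1) ≤ p * (q / p) := Nat.mul_le_mul_left _ hcon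
          have : p * (c + 1) = p * c + p := by ring
          omega
        rw [Nat.mul_sub]
        omega
      have h7 : c - q / p < 2 := by
        by_contra hcon
        push Not at hcon
        have : p * 2 ≤ p * (c - q / p) := Nat.mul_le_mul_left _ hcon
        omega
      rcases Nat.lt_or_ge (c - q / p) 1 with h8 | h8
      · have h9 : c - q / p = 0 := by omega
        rw [h9, mul_zero] at h5
        have : q % p = 0 := by omega
        rw [this, Nat.sub_zero, Nat.mod_self]
        omega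
      · have h9 : c - q / p = 1 := by omega
        rw [h9, mul_one] at h5
        have h10 : p - q % p = r := by omega
        rw [h10, Nat.mod_eq_of_lt hr]
    · rintro ⟨s, hs, rfl⟩
      refine ⟨Nat.mod_lt _ hp, ?_⟩
      rw [mem_image] at hs
      obtain ⟨q, hq, rfl⟩ := hs
      push Not
      refine ⟨q, hq, ?_⟩
      have h3 := Nat.mod_lt q hp
      rw [Nat.dvd_iff_mod_eq_zero, Nat.mod_add_mod, Nat.add_mod, ← Nat.mod_add_mod]
      have h5 : (p - q % p) % p % p = (p - q % p) % p := Nat.mod_mod _ _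
      rw [Nat.mod_add_mod, Nat.mod_add_mod]
      have h6 : p - q % p + q % p = p := by omega
      rw [h6, Nat.mod_self]
  have h3 : ((Q.image (fun q => q % p)).image (fun s => (p - s) % p)).card = (Q.image (fun q => q % p)).card := by
    apply card_image_of_injOn
    intro s hs t ht hst
    rw [mem_coe, mem_image] at hs ht
    obtain ⟨a, _, rfl⟩ := hs
    obtain ⟨b, _, rfl⟩ := ht
    have h4 := Nat.mod_lt a hp
    have h5 := Nat.mod_lt b hp
    have hst' : (p - a % p) % p = (p - b % p) % p := hst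
    rcases Nat.eq_zero_or_pos (a % p) with h6 | h6
    · rcases Nat.eq_zero_or_pos (b % p) with h7 | h7
      · show a % p = b % p
        omega
      · rw [h6, Nat.sub_zero, Nat.mod_self, Nat.mod_eq_of_lt (by omega : p - b % p < p)] at hst'
        omega
    · rcases Nat.eq_zero_or_pos (b % p) with h7 | h7
      · rw [h7, Nat.sub_zero, Nat.mod_self, Nat.mod_eq_of_lt (by omega : p - a % p < p)] at hst'
        omega
      · rw [Nat.mod_eq_of_lt (by omega : p - a % p < p), Nat.mod_eq_of_lt (by omega : p - b % p < p)] at hst'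
        show a % p = b % p
        omega
  rw [h2, h3, card_range] at h1
  have h4 : (((range p).filter (fun r => ∀ q ∈ Q, ¬ p ∣ r + q)).card : ℝ) + ((Q.image (fun q => q % p)).card : ℝ) = p := by
    exact_mod_cast h1
  linarith

/-- the product of the local densities -/
noncomputable def Sz (z : ℕ) (Q : Finset ℕ) : ℝ :=
  ∏ p ∈ Nat.primesLE z, (1 - ((Q.image (fun q => q % p)).card : ℝ) / p) / (1 - 1 / (p : ℝ)) ^ Q.card

lemma RQ_id (d : ℕ) (hd : 1 ≤ d) (z n : ℕ) (Q : Finset ℕ) : RQ z (idP d) n Q =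
    ∏ p ∈ Nat.primesLE z, (if ∀ q ∈ Q, ¬ p ∣ n + q then ((1 - 1 / (p : ℝ)) ^ Q.card)⁻¹ else 0) := by
  have hC : (primorial z : ℝ) / Nat.totient (primorial z) = ∏ p ∈ Nat.primesLE z, (1 - 1 / (p : ℝ))⁻¹ := Cz_eq' z
  have key : ∀ u : ℕ, Int.gcd ((u : ℕ) : ℤ) ((primorial z : ℕ) : ℤ) = 1 ↔ ∀ p ∈ Nat.primesLE z, ¬ p ∣ u := by
    intro u
    rw [Int.gcd_def, Int.natAbs_natCast, Int.natAbs_natCast]
    constructor
    · intro h1 p hp hpu
      rw [Nat.mem_primesLE] at hp
      have h2 : p ∣ Nat.gcd u (primorial z) := Nat.dvd_gcd hpu (hp.2.dvd_primorial_iff.2 hp.1)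
      rw [h1] at h2
      exact hp.2.one_lt.ne' (Nat.dvd_one.1 h2)
    · intro h1
      by_contra hcon
      obtain ⟨p, hp, hpd⟩ := Nat.exists_prime_and_dvd hcon
      have h2 := hpd.trans (Nat.gcd_dvd_left _ _)
      have h3 := hpd.trans (Nat.gcd_dvd_right _ _)
      exact h1 p (Nat.mem_primesLE.2 ⟨hp.dvd_primorial_iff.1 h3, hp⟩) h2
  unfold RQ
  rw [Finset.prod_ite_zero]
  have e1 : ∀ q ∈ Q, MM (primorial z) (pv (idP d) (n + q)) =
      if (∀ p ∈ Nat.primesLE z, ¬ p ∣ n + q) then ∏ p ∈ Nat.primesLE z, (1 - 1 / (p : ℝ))⁻¹ else 0 := by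
    intro q _
    rw [pv_idP d hd]
    unfold MM
    rw [hC]
    by_cases h : ∀ p ∈ Nat.primesLE z, ¬ p ∣ n + q
    · rw [if_pos h, if_pos ((key _).2 h)]
    · rw [if_neg h, if_neg (fun h2 => h ((key _).1 h2))]
  rw [prod_congr rfl e1, Finset.prod_ite_zero, prod_const]
  by_cases h : ∀ q ∈ Q, ∀ p ∈ Nat.primesLE z, ¬ p ∣ n + q
  · rw [if_pos h, if_pos (fun p hp q hq => h q hq p hp), ← prod_pow]
    apply prod_congr rfl
    intro p _
    rw [inv_pow]
  · rw [if_neg h, if_neg (fun h2 => h (fun q hq p hp => h2 p hp q hq))]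

lemma sum_RQ (d : ℕ) (hd : 1 ≤ d) (z : ℕ) (Q : Finset ℕ) :
    ∑ n ∈ range (primorial z), RQ z (idP d) n Q = primorial z * Sz z Q := by
  have h1 : primorial z = ∏ p ∈ Nat.primesLE z, p := rfl
  rw [sum_congr rfl (fun n _ => RQ_id d hd z n Q), h1]
  rw [crtS (fun p n => if ∀ q ∈ Q, ¬ p ∣ n + q then ((1 - 1 / (p : ℝ)) ^ Q.card)⁻¹ else 0) (by
    intro p n
    have : ∀ q, p ∣ n % p + q ↔ p ∣ n + q := by
      intro q
      rw [Nat.dvd_iff_mod_eq_zero, Nat.dvd_iff_mod_eq_zero, Nat.mod_add_mod]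
    simp only [this]) _ (fun p hp => Nat.prime_of_mem_primesLE hp)]
  unfold Sz
  push_cast
  rw [← prod_mul_distrib]
  apply prod_congr rfl
  intro p hp
  have hpp := Nat.prime_of_mem_primesLE hp
  have hp0 : (0 : ℝ) < p := by exact_mod_cast hpp.pos
  rw [← sum_filter, sum_const, nsmul_eq_mul, count_p p hpp.pos Q]
  field_simp

end Pool.Agent.Helper82K9.PW
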