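import Pool.Agent.Helper82K9.PW.PW4

set_option autoImplicit false

/-! The singular series and its finite products. -/

namespace Pool.Agent.Helper82K9.PW

open Finset Filter Pool.Agent.Helper82K9.PR Pool.Agent.Helper82K9.PV Pool.Agent.Helper32K9.QB

/-- the number of the classes modulo `p` which are met by `Q` -/
def nuQ (Q : Finset ℕ) (p : ℕ) : ℕ := (Q.image (fun q => q % p)).card

/-- the local factor -/
noncomputable def fac (Q : Finset ℕ) (p : ℕ) : ℝ := (1 - (nuQ Q p : ℝ) / p) / (1 - 1 / (p : ℝ)) ^ Q.card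

/-- the product of the differences -/
def uQ (Q : Finset ℕ) : ℕ := ∏ a ∈ Q.offDiag, ((a.1 : ℤ) - a.2).natAbs

lemma uQ_pos (Q : Finset ℕ) : 1 ≤ uQ Q := by
  unfold uQ
  apply Nat.one_le_iff_ne_zero.2
  rw [prod_ne_zero_iff]
  intro a ha
  rw [mem_offDiag] at ha
  have := ha.2.2
  omega

lemma uQ_le (Q : Finset ℕ) (X : ℕ) (hX : 1 ≤ X) (hQ : ∀ q ∈ Q, q ≤ X) : uQ Q ≤ X ^ (Q.card ^ 2) := by
  unfold uQ
  calc ∏ a ∈ Q.offDiag, ((a.1 : ℤ) - a.2).natAbs ≤ ∏ _a ∈ Q.offDiag, X := by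
        apply prod_le_prod'
        intro a ha
        rw [mem_offDiag] at ha
        have h1 := hQ _ ha.1
        have h2 := hQ _ ha.2.1
        omega
    _ = X ^ Q.offDiag.card := by rw [prod_const]
    _ ≤ _ := by
        apply Nat.pow_le_pow_right hX
        rw [offDiag_card, pow_two]
        omega

lemma log_lin (t : ℝ) (h0 : 0 ≤ t) (h1 : t ≤ 1 / 2) : Real.log (1 - t) + t ≤ 0 ∧ -(2 * t ^ 2) ≤ Real.log (1 - t) + t := by
  have h2 : 0 < 1 - t := by linarith
  constructor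
  · have := Real.log_le_sub_one_of_pos h2
    linarith
  · have h3 := Real.one_sub_inv_le_log_of_pos h2
    have h4 : (1 - t)⁻¹ ≤ 1 + t + 2 * t ^ 2 := by
      rw [inv_le_iff_one_le_mul₀ h2]
      nlinarith [mul_nonneg h0 h0, mul_nonneg (mul_nonneg h0 h0) (by linarith : 0 ≤ 1 - 2 * t)]
    linarith

lemma nuQ_le (Q : Finset ℕ) (p : ℕ) : nuQ Q p ≤ Q.card := card_image_le

lemma nuQ_eq (Q : Finset ℕ) (p : ℕ) (hp : ¬ p ∣ uQ Q) : nuQ Q p = Q.card := by
  unfold nuQ
  apply card_image_of_injOn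
  intro a ha b hb hab
  by_contra hne
  apply hp
  have h1 : p ∣ ((a : ℤ) - b).natAbs := by
    have h2 : b ≡ a [MOD p] := (show a % p = b % p from hab).symm
    rw [← Int.natCast_modEq_iff, Int.modEq_iff_dvd] at h2
    exact Int.natCast_dvd.1 h2
  unfold uQ
  exact h1.trans (dvd_prod_of_mem (fun a : ℕ × ℕ => ((a.1 : ℤ) - a.2).natAbs) (mem_offDiag.2 ⟨mem_coe.1 ha, mem_coe.1 hb, hne⟩ :
    (a, b) ∈ Q.offDiag))

lemma fac_log (Q : Finset ℕ) (p : ℕ) (hp : p.Prime) (hpk : 2 * Q.card ≤ p) :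
    |Real.log (fac Q p)| ≤ (2 * (Q.card : ℝ) ^ 2 + 2 * Q.card) / p ^ 2 + (if p ∣ uQ Q then (Q.card : ℝ) / p else 0) ∧
    -((2 * (Q.card : ℝ) ^ 2 + 2 * Q.card) / p ^ 2) ≤ Real.log (fac Q p) := by
  set k : ℝ := (Q.card : ℝ) with hk
  set ν : ℝ := (nuQ Q p : ℝ) with hν
  have hk0 : 0 ≤ k := Nat.cast_nonneg _
  have hν0 : 0 ≤ ν := Nat.cast_nonneg _
  have hνk : ν ≤ k := by
    rw [hν, hk]
    exact_mod_cast nuQ_le Q p
  have hp2 : (2 : ℝ) ≤ p := by exact_mod_cast hp.two_le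
  have hp0 : (0 : ℝ) < p := by linarith
  have hkp : 2 * k ≤ p := by
    rw [hk]
    exact_mod_cast hpk
  have t1 : ν / p ≤ 1 / 2 := by
    rw [div_le_iff₀ hp0]
    linarith
  have t2 : 1 / (p : ℝ) ≤ 1 / 2 := one_div_le_one_div_of_le (by norm_num) hp2
  obtain ⟨a1, a2⟩ := log_lin (ν / p) (by positivity) t1
  obtain ⟨b1, b2⟩ := log_lin (1 / p) (by positivity) t2
  have e1 : Real.log (fac Q p) = Real.log (1 - ν / p) - k * Real.log (1 - 1 / p) := by
    unfold fac
    rw [Real.log_div (by linarith) (pow_ne_zero _ (by linarith)), Real.log_pow]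
  have e2 : Real.log (fac Q p) = (Real.log (1 - ν / p) + ν / p) - k * (Real.log (1 - 1 / p) + 1 / p) + (k - ν) / p := by
    rw [e1]
    ring
  have h3 : 0 ≤ (k - ν) / p := div_nonneg (by linarith) hp0.le
  have h4 : (ν / p) ^ 2 ≤ k ^ 2 / p ^ 2 := by
    rw [div_pow]
    gcongr
  have h5 : (2 * k ^ 2 + 2 * k) / p ^ 2 = 2 * (k ^ 2 / p ^ 2) + k * (2 * (1 / p) ^ 2) := by
    field_simp
  have h6 : k * -(2 * (1 / (p : ℝ)) ^ 2) ≤ k * (Real.log (1 - 1 / p) + 1 / p) := by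
    apply mul_le_mul_of_nonneg_left _ hk0
    linarith
  have h7 : k * (Real.log (1 - 1 / p) + 1 / p) ≤ 0 := mul_nonpos_of_nonneg_of_nonpos hk0 b1
  have h8 : (k - ν) / p ≤ (if p ∣ uQ Q then k / p else 0) := by
    split_ifs with h
    · apply div_le_div_of_nonneg_right _ hp0.le
      linarith
    · have := nuQ_eq Q p h
      rw [hν, this, hk, sub_self, zero_div]
  have h9 : 0 ≤ k * (2 * (1 / (p : ℝ)) ^ 2) := by positivity
  have h10 : 0 ≤ k ^ 2 / (p : ℝ) ^ 2 := by positivity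
  have h11 : k * -(2 * (1 / (p : ℝ)) ^ 2) = -(k * (2 * (1 / (p : ℝ)) ^ 2)) := by ring
  refine ⟨?_, ?_⟩
  · rw [abs_le]
    constructor
    · rw [e2, h5]
      split_ifs at h8 ⊢ <;> linarith
    · rw [e2, h5]
      linarith
  · rw [e2, h5]
    linarith

/-- the logarithms -/
noncomputable def Fp (Q : Finset ℕ) (n : ℕ) : ℝ := if n.Prime then Real.log (fac Q n) else 0

lemma tail_range (Q : Finset ℕ) (z : ℕ) (hz : 1 ≤ z) (hzk : 2 * Q.card ≤ z) (N : ℕ) :
    ∑ i ∈ range N, |Fp Q (i + (z + 1))| ≤ (2 * (Q.card : ℝ) ^ 2 + 2 * Q.card) / z + Q.card * sg z (uQ Q) := by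
  set k : ℝ := (Q.card : ℝ) with hk
  have hk0 : 0 ≤ k := Nat.cast_nonneg _
  have hz0 : (0 : ℝ) < z := by exact_mod_cast hz
  have h1 : ∀ i ∈ range N, |Fp Q (i + (z + 1))| ≤ (2 * k ^ 2 + 2 * k) * (1 / ((i + z : ℕ) : ℝ) - 1 / ((i + 1 + z : ℕ) : ℝ)) +
      (if (i + (z + 1)).Prime ∧ (i + (z + 1)) ∣ uQ Q then k / ((i + (z + 1) : ℕ) : ℝ) else 0) := by
    intro i _
    have hm0 : (0 : ℝ) < ((i + z : ℕ) : ℝ) := by exact_mod_cast (by omega : 0 < i + z)
    have hm1 : ((i + 1 + z : ℕ) : ℝ) = ((i + z : ℕ) : ℝ) + 1 := by push_cast; ring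
    have hm2 : ((i + (z + 1) : ℕ) : ℝ) = ((i + z : ℕ) : ℝ) + 1 := by push_cast; ring
    have h2 : 1 / ((i + (z + 1) : ℕ) : ℝ) ^ 2 ≤ 1 / ((i + z : ℕ) : ℝ) - 1 / ((i + 1 + z : ℕ) : ℝ) := by
      rw [hm1, hm2, div_sub_div _ _ hm0.ne' (by positivity), div_le_div_iff₀ (by positivity) (by positivity)]
      nlinarith
    have h3 : 0 ≤ 1 / ((i + z : ℕ) : ℝ) - 1 / ((i + 1 + z : ℕ) : ℝ) := le_trans (by positivity) h2
    unfold Fp
    by_cases hp : (i + (z + 1)).Prime
    · rw [if_pos hp]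
      refine (fac_log Q _ hp (by omega)).1.trans ?_
      apply add_le_add
      · rw [div_eq_mul_one_div]
        exact mul_le_mul_of_nonneg_left h2 (by positivity)
      · by_cases h4 : (i + (z + 1)) ∣ uQ Q
        · rw [if_pos h4, if_pos ⟨hp, h4⟩]
        · rw [if_neg h4, if_neg (fun h => h4 h.2)]
    · rw [if_neg hp, if_neg (fun h => hp h.1), abs_zero, add_zero]
      positivity
  refine (sum_le_sum h1).trans ?_
  rw [sum_add_distrib, ← mul_sum]
  apply add_le_add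
  · rw [div_eq_mul_one_div]
    apply mul_le_mul_of_nonneg_left _ (by positivity)
    have h2 := Finset.sum_range_sub' (fun i : ℕ => 1 / ((i + z : ℕ) : ℝ)) N
    rw [h2, zero_add]
    have : (0 : ℝ) ≤ 1 / ((N + z : ℕ) : ℝ) := by positivity
    linarith
  · unfold sg
    rw [mul_sum, ← sum_filter]
    have h2 : ∑ i ∈ (range N).filter (fun i => (i + (z + 1)).Prime ∧ (i + (z + 1)) ∣ uQ Q), k / ((i + (z + 1) : ℕ) : ℝ) =
        ∑ p ∈ ((range N).filter (fun i => (i + (z + 1)).Prime ∧ (i + (z + 1)) ∣ uQ Q)).image (fun i => i + (z + 1)),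
          k * (1 / (p : ℝ)) := by
      rw [sum_image (fun a _ b _ hab => by simpa using hab)]
      apply sum_congr rfl
      intro i _
      rw [mul_one_div]
    rw [h2]
    apply sum_le_sum_of_subset_of_nonneg
    · intro p hp
      rw [mem_image] at hp
      obtain ⟨i, hi, rfl⟩ := hp
      rw [mem_filter] at hi
      unfold LP
      rw [mem_filter, Nat.mem_primeFactors]
      have := uQ_pos Q
      exact ⟨⟨hi.2.1, hi.2.2, by omega⟩, by omega⟩
    · intro p _ _
      positivity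

lemma Fp_summable (Q : Finset ℕ) : Summable (Fp Q) := by
  set z := 2 * Q.card + 1 with hz
  have h1 : Summable (fun i => |Fp Q (i + (z + 1))|) :=
    summable_of_sum_range_le (fun _ => abs_nonneg _) (fun N => tail_range Q z (by omega) (by omega) N)
  exact (summable_nat_add_iff (z + 1)).1 h1.of_abs

/-- the singular series -/
noncomputable def SSQ (Q : Finset ℕ) : ℝ := ∏' p : Nat.Primes, fac Q (p : ℕ)

lemma fac_pos (Q : Finset ℕ) (p : ℕ) (hp : p.Prime) (h : nuQ Q p < p) : 0 < fac Q p := by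
  unfold fac
  have hp0 : (0 : ℝ) < p := by exact_mod_cast hp.pos
  obtain ⟨h1, -⟩ := one_sub_pos p hp
  apply div_pos _ (by positivity)
  rw [sub_pos, div_lt_one hp0]
  exact_mod_cast h

lemma SSQ_exp (Q : Finset ℕ) (h : ∀ p : ℕ, p.Prime → nuQ Q p < p) : SSQ Q = Real.exp (∑' n, Fp Q n) := by
  have h1 : ∀ p : Nat.Primes, 0 < fac Q (p : ℕ) := fun p => fac_pos Q p p.2 (h p p.2)
  have e1 : Fp Q = Set.indicator {p : ℕ | p.Prime} (fun n => Real.log (fac Q n)) := by
    ext n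
    unfold Fp
    rw [Set.indicator_apply]
    rfl
  have h2 : Summable (fun p : Nat.Primes => Real.log (fac Q (p : ℕ))) := by
    have h3 := Fp_summable Q
    rw [e1] at h3
    exact (summable_subtype_iff_indicator).2 h3
  have h3 : ∑' p : Nat.Primes, Real.log (fac Q (p : ℕ)) = ∑' n, Fp Q n := by
    rw [e1]
    exact tsum_subtype {p : ℕ | p.Prime} (fun n => Real.log (fac Q n))
  unfold SSQ
  rw [← h3, Real.rexp_tsum_eq_tprod h1 h2]

lemma Sz_exp (z : ℕ) (Q : Finset ℕ) (h : ∀ p : ℕ, p.Prime → nuQ Q p < p) :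
    Sz z Q = Real.exp (∑ n ∈ range (z + 1), Fp Q n) := by
  have e1 : ∑ n ∈ range (z + 1), Fp Q n = ∑ p ∈ Nat.primesLE z, Real.log (fac Q p) := by
    unfold Fp
    rw [← sum_filter]
    apply sum_congr _ (fun _ _ => rfl)
    ext p
    rw [mem_filter, mem_range, Nat.mem_primesLE]
    constructor
    · rintro ⟨a, b⟩; exact ⟨by omega, b⟩
    · rintro ⟨a, b⟩; exact ⟨by omega, b⟩
  rw [e1, Real.exp_sum]
  unfold Sz
  apply prod_congr rfl
  intro p hp
  have hpp := Nat.prime_of_mem_primesLE hp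
  rw [Real.exp_log (fac_pos Q p hpp (h p hpp))]
  rfl

/-- the finite products are close to the singular series -/
theorem close (Q : Finset ℕ) (h : ∀ p : ℕ, p.Prime → nuQ Q p < p) (z : ℕ) (hz : 1 ≤ z) (hzk : 2 * Q.card ≤ z) (τ : ℝ)
    (hτ : (2 * (Q.card : ℝ) ^ 2 + 2 * Q.card) / z + Q.card * sg z (uQ Q) ≤ τ) (hτ1 : τ ≤ 1) :
    0 < SSQ Q ∧ |Sz z Q - SSQ Q| ≤ 2 * τ * SSQ Q := by
  have h1 := Fp_summable Q
  have h2 := h1.sum_add_tsum_nat_add (z + 1)
  have h3 : |∑' i, Fp Q (i + (z + 1))| ≤ τ := by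
    have h4 : Summable (fun i => |Fp Q (i + (z + 1))|) :=
      summable_of_sum_range_le (fun _ => abs_nonneg _) (fun N => tail_range Q z hz hzk N)
    have h5 := Real.tsum_le_of_sum_range_le (fun _ => abs_nonneg _) (fun N => tail_range Q z hz hzk N)
    have h6 : |∑' i, Fp Q (i + (z + 1))| ≤ ∑' i, |Fp Q (i + (z + 1))| := by
      have := norm_tsum_le_tsum_norm (f := fun i => Fp Q (i + (z + 1))) h4
      simpa [Real.norm_eq_abs] using this
    linarith
  set θ := ∑' i, Fp Q (i + (z + 1)) with hθ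
  rw [SSQ_exp Q h, Sz_exp z Q h, ← h2, Real.exp_add]
  set E := Real.exp (∑ n ∈ range (z + 1), Fp Q n) with hE
  have hE0 : 0 < E := Real.exp_pos _
  have hθ0 : 0 < Real.exp θ := Real.exp_pos _
  refine ⟨by positivity, ?_⟩
  have h7 : |Real.exp (-θ) - 1| ≤ 2 * τ := by
    have h8 := Real.abs_exp_sub_one_le (x := -θ) (by rw [abs_neg]; linarith)
    rw [abs_neg] at h8
    linarith
  have h9 : E - E * Real.exp θ = (E * Real.exp θ) * (Real.exp (-θ) - 1) := by
    have h10 : Real.exp θ * Real.exp (-θ) = 1 := by rw [← Real.exp_add, add_neg_cancel, Real.exp_zero]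
    rw [mul_sub, mul_assoc, h10]
    ring
  rw [h9, abs_mul, abs_of_pos (by positivity)]
  calc E * Real.exp θ * |Real.exp (-θ) - 1| ≤ E * Real.exp θ * (2 * τ) := mul_le_mul_of_nonneg_left h7 (by positivity)
    _ = _ := by ring

/-- a lower bound for the finite products -/
theorem Sz_low (k : ℕ) : ∃ c : ℝ, 0 < c ∧ ∀ Q : Finset ℕ, Q.card = k → (∀ p : ℕ, p.Prime → nuQ Q p < p) → ∀ z : ℕ, c ≤ Sz z Q := by
  set K := 2 * k + 1 with hK
  refine ⟨(1 / (K : ℝ)) ^ K * Real.exp (-(2 * (k : ℝ) ^ 2 + 2 * k)), by positivity, fun Q hQ h z => ?_⟩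
  have hK0 : (0 : ℝ) < K := by positivity
  have hk0 : (0 : ℝ) ≤ k := Nat.cast_nonneg _
  have h1 : Sz z Q = (∏ p ∈ (Nat.primesLE z).filter (fun p => p ≤ K), fac Q p) *
      ∏ p ∈ (Nat.primesLE z).filter (fun p => ¬ p ≤ K), fac Q p := by
    rw [prod_filter_mul_prod_filter_not]
    rfl
  rw [h1]
  apply mul_le_mul _ _ (Real.exp_pos _).le
  · apply prod_nonneg
    intro p hp
    have hpp := Nat.prime_of_mem_primesLE (mem_filter.1 hp).1
    exact (fac_pos Q p hpp (h p hpp)).le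
  · have h2 : ∀ p ∈ (Nat.primesLE z).filter (fun p => p ≤ K), 1 / (K : ℝ) ≤ fac Q p := by
      intro p hp
      rw [mem_filter] at hp
      have hpp := Nat.prime_of_mem_primesLE hp.1
      have hp0 : (0 : ℝ) < p := by exact_mod_cast hpp.pos
      obtain ⟨h3, h4⟩ := one_sub_pos p hpp
      have h5 : 1 / (p : ℝ) ≤ 1 - (nuQ Q p : ℝ) / p := by
        have h6 : (nuQ Q p : ℝ) + 1 ≤ p := by exact_mod_cast h p hpp
        rw [le_sub_iff_add_le, ← add_div, div_le_one hp0]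
        linarith
      have h7 : 1 / (K : ℝ) ≤ 1 / p := one_div_le_one_div_of_le hp0 (by exact_mod_cast hp.2)
      unfold fac
      rw [le_div_iff₀ (by positivity)]
      calc 1 / (K : ℝ) * (1 - 1 / (p : ℝ)) ^ Q.card ≤ 1 / (K : ℝ) * 1 := by
            apply mul_le_mul_of_nonneg_left _ (by positivity)
            exact pow_le_one₀ h3.le h4
        _ ≤ _ := by linarith
    calc (1 / (K : ℝ)) ^ K ≤ (1 / (K : ℝ)) ^ ((Nat.primesLE z).filter (fun p => p ≤ K)).card := by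
          apply pow_le_pow_of_le_one (by positivity)
          · rw [div_le_one hK0]
            exact_mod_cast (by omega : 1 ≤ K)
          · have h3 : (Nat.primesLE z).filter (fun p => p ≤ K) ⊆ Icc 1 K := by
              intro p hp
              rw [mem_filter] at hp
              have := (Nat.prime_of_mem_primesLE hp.1).one_le
              rw [mem_Icc]
              exact ⟨this, hp.2⟩
            have := card_le_card h3
            rw [Nat.card_Icc] at this
            omega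
      _ = ∏ _p ∈ (Nat.primesLE z).filter (fun p => p ≤ K), 1 / (K : ℝ) := by rw [prod_const]
      _ ≤ _ := Finset.prod_le_prod (fun _ _ => by positivity) h2
  · have h2 : ∀ p ∈ (Nat.primesLE z).filter (fun p => ¬ p ≤ K),
        Real.exp (-(2 * (k : ℝ) ^ 2 + 2 * k) * (1 / ((p : ℝ) ^ 2))) ≤ fac Q p := by
      intro p hp
      rw [mem_filter] at hp
      have hpp := Nat.prime_of_mem_primesLE hp.1
      have h3 := (fac_log Q p hpp (by omega)).2
      rw [hQ] at h3
      rw [← Real.exp_log (fac_pos Q p hpp (h p hpp))]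
      apply Real.exp_le_exp.2
      refine le_trans (le_of_eq ?_) h3
      ring
    refine le_trans ?_ (Finset.prod_le_prod (fun _ _ => (Real.exp_pos _).le) h2)
    rw [← Real.exp_sum, ← mul_sum]
    apply Real.exp_le_exp.2
    have h4 : ∑ p ∈ (Nat.primesLE z).filter (fun p => ¬ p ≤ K), 1 / ((p : ℝ) ^ 2) ≤ 1 := by
      have h5 : ∑ p ∈ (Nat.primesLE z).filter (fun p => ¬ p ≤ K), 1 / ((p : ℝ) ^ 2) ≤ ∑ i ∈ range z, 1 / (((i + 2 : ℕ) : ℝ) ^ 2) := by
        rw [← sum_image (f := fun m : ℕ => 1 / ((m : ℝ) ^ 2)) (s := range z) (g := fun i => i + 2) (fun a _ b _ hab => by simpa using hab)]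
        apply sum_le_sum_of_subset_of_nonneg
        · intro p hp
          rw [mem_filter, Nat.mem_primesLE] at hp
          rw [mem_image]
          have := hp.1.2.two_le
          exact ⟨p - 2, mem_range.2 (by omega), by omega⟩
        · intro m _ _
          positivity
      refine h5.trans ?_
      have h6 : ∀ i ∈ range z, 1 / (((i + 2 : ℕ) : ℝ) ^ 2) ≤ 1 / ((i + 1 : ℕ) : ℝ) - 1 / ((i + 1 + 1 : ℕ) : ℝ) := by
        intro i _
        have hm0 : (0 : ℝ) < ((i + 1 : ℕ) : ℝ) := by positivity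
        have hm1 : ((i + 1 + 1 : ℕ) : ℝ) = ((i + 1 : ℕ) : ℝ) + 1 := by push_cast; ring
        have hm2 : ((i + 2 : ℕ) : ℝ) = ((i + 1 : ℕ) : ℝ) + 1 := by push_cast; ring
        rw [hm2, div_sub_div _ _ hm0.ne' (by positivity), div_le_div_iff₀ (by positivity) (by positivity)]
        nlinarith
      refine (sum_le_sum h6).trans ?_
      have h7 := Finset.sum_range_sub' (fun i : ℕ => 1 / ((i + 1 : ℕ) : ℝ)) z
      rw [h7]
      have : (0 : ℝ) ≤ 1 / ((z + 1 : ℕ) : ℝ) := by positivity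
      norm_num
      positivity
    nlinarith [mul_nonneg (by positivity : (0 : ℝ) ≤ 2 * (k : ℝ) ^ 2 + 2 * k) (sub_nonneg.2 h4)]

end Pool.Agent.Helper82K9.PW
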