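import Pool.Agent.Helper82K9.PW.PW5

set_option autoImplicit false

/-! The densities of the residue classes for the polynomial `n`. -/

namespace Pool.Agent.Helper82K9.PW

open Finset Filter Pool.Agent.Helper82K9.PR Pool.Agent.Helper82K9.PV Pool.Agent.Helper32K9.QB

/-- the admissible classes -/
def adm (q : ℕ) : Finset ℕ := (range q).filter (fun c => Nat.Coprime c q ∧ Nat.Coprime (c + 2) q)

lemma count_class (q k c : ℕ) (hc : c < q) : ∑ r ∈ range (q * k), (if r % q = c then (1 : ℝ) else 0) = k := by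
  induction k with
  | zero => simp
  | succ k ih =>
    rw [Nat.mul_succ, Finset.sum_range_add, ih]
    have h1 : ∑ x ∈ range q, (if (q * k + x) % q = c then (1 : ℝ) else 0) = ∑ x ∈ range q, if x = c then 1 else 0 := by
      apply sum_congr rfl
      intro x hx
      rw [mem_range] at hx
      rw [Nat.mul_add_mod, Nat.mod_eq_of_lt hx]
    rw [h1, sum_ite_eq' (range q) c (fun _ => (1 : ℝ)), if_pos (mem_range.2 hc)]
    push_cast
    ring

/-- the local factor of the polynomial `n` at `p` for the shifts `0`, `2` -/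
noncomputable def gp (p n : ℕ) : ℝ := if ¬ p ∣ n ∧ ¬ p ∣ n + 2 then ((1 - 1 / (p : ℝ)) ^ 2)⁻¹ else 0

lemma rh_id (d : ℕ) (hd : 1 ≤ d) (z n : ℕ) : rh z (idP d) n = ∏ p ∈ Nat.primesLE z, gp p n := by
  rw [← rh_RQ, RQ_id d hd]
  apply prod_congr rfl
  intro p _
  unfold gp
  have e1 : (∀ q ∈ ({0, 2} : Finset ℕ), ¬ p ∣ n + q) ↔ (¬ p ∣ n ∧ ¬ p ∣ n + 2) := by simp
  have e2 : ({0, 2} : Finset ℕ).card = 2 := by decide
  rw [e2]
  simp only [e1]

lemma gp_mod (p n : ℕ) : gp p (n % p) = gp p n := by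
  unfold gp
  have h1 : p ∣ n % p ↔ p ∣ n := by rw [Nat.dvd_iff_mod_eq_zero, Nat.dvd_iff_mod_eq_zero, Nat.mod_mod]
  have h2 : p ∣ n % p + 2 ↔ p ∣ n + 2 := by rw [Nat.dvd_iff_mod_eq_zero, Nat.dvd_iff_mod_eq_zero, Nat.mod_add_mod]
  simp only [h1, h2]

lemma class_sum (d : ℕ) (hd : 1 ≤ d) (z q : ℕ) (hq : 1 ≤ q) : ∃ K : ℝ, ∀ c ∈ adm q,
    ∑ n ∈ range (q * primorial z), (if n % q = c then rh z (idP d) n else 0) = K := by
  set S1 := (Nat.primesLE z).filter (fun p => p ∣ q) with hS1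
  set S2 := (Nat.primesLE z).filter (fun p => ¬ p ∣ q) with hS2
  set W1 := ∏ p ∈ S1, p with hW1
  set W2 := ∏ p ∈ S2, p with hW2
  set G := ∏ p ∈ S1, ((1 - 1 / (p : ℝ)) ^ 2)⁻¹ with hG
  have hpr2 : ∀ p ∈ S2, p.Prime := fun p hp => Nat.prime_of_mem_primesLE (mem_filter.1 hp).1
  have hpr1 : ∀ p ∈ S1, p.Prime := fun p hp => Nat.prime_of_mem_primesLE (mem_filter.1 hp).1
  have hW : primorial z = W1 * W2 := by
    rw [hW1, hW2, prod_filter_mul_prod_filter_not]
    rfl
  refine ⟨G * (W1 * ∑ r ∈ range W2, ∏ p ∈ S2, gp p r), fun c hc => ?_⟩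
  unfold adm at hc
  rw [mem_filter, mem_range] at hc
  obtain ⟨hcq, hc1, hc2⟩ := hc
  have hW1p : 0 < W1 := prod_pos fun p hp => (hpr1 p hp).pos
  have hW2p : 0 < W2 := prod_pos fun p hp => (hpr2 p hp).pos
  have hcop : Nat.Coprime (q * W1) W2 := by
    rw [hW2]
    apply Nat.Coprime.prod_right
    intro p hp
    have hpp := hpr2 p hp
    apply Nat.Coprime.symm
    rw [Nat.Prime.coprime_iff_not_dvd hpp, hpp.dvd_mul]
    rintro (h | h)
    · exact (mem_filter.1 hp).2 h
    · rw [hW1, hpp.prime.dvd_finsetProd_iff] at h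
      obtain ⟨a, ha, hpa⟩ := h
      have h2 := (Nat.prime_dvd_prime_iff_eq hpp (hpr1 a ha)).1 hpa
      rw [h2] at hp
      exact (mem_filter.1 hp).2 (mem_filter.1 ha).2
  have e1 : ∀ n, (if n % q = c then rh z (idP d) n else 0) = G * ((if n % q = c then 1 else 0) * ∏ p ∈ S2, gp p n) := by
    intro n
    split_ifs with h
    · rw [rh_id d hd, ← prod_filter_mul_prod_filter_not (Nat.primesLE z) (fun p => p ∣ q), one_mul]
      congr 1
      apply prod_congr rfl
      intro p hp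
      rw [mem_filter] at hp
      have hpp := Nat.prime_of_mem_primesLE hp.1
      have h3 : ∀ k, Nat.Coprime (c + k) q → ¬ p ∣ n + k := by
        intro k hk hpn
        have h4 : p ∣ c + k := by
          rw [Nat.dvd_iff_mod_eq_zero] at hpn ⊢
          have h5 : c % p = n % p := by rw [← h, Nat.mod_mod_of_dvd _ hp.2]
          rw [← Nat.mod_add_mod, h5, Nat.mod_add_mod]
          exact hpn
        exact hpp.one_lt.ne' (Nat.dvd_one.1 (hk ▸ Nat.dvd_gcd h4 hp.2))
      unfold gp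
      rw [if_pos ⟨h3 0 hc1, h3 2 hc2⟩]
    · ring
  rw [sum_congr rfl (fun n _ => e1 n), ← mul_sum, hW, ← mul_assoc q W1 W2]
  congr 1
  rw [crt2 (q * W1) W2 (Nat.mul_pos hq hW1p) hW2p hcop (fun n => if n % q = c then 1 else 0) (fun n => ∏ p ∈ S2, gp p n) (by
    intro n
    rw [Nat.mod_mul_right_mod]) (by
    intro n
    apply prod_congr rfl
    intro p hp
    rw [← gp_mod p (n % W2), Nat.mod_mod_of_dvd _ (dvd_prod_of_mem _ hp), gp_mod])]
  rw [count_class q W1 c hcq]

lemma class_zero (d : ℕ) (hd : 1 ≤ d) (z q c : ℕ) (hz : ∀ p, p.Prime → p ∣ q → p ≤ z) (hcq : c < q) (hc : c ∉ adm q) :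
    ∑ n ∈ range (q * primorial z), (if n % q = c then rh z (idP d) n else 0) = 0 := by
  apply sum_eq_zero
  intro n _
  split_ifs with h
  · rw [rh_id d hd]
    have h1 : ¬ (Nat.Coprime c q ∧ Nat.Coprime (c + 2) q) := fun h2 => hc (mem_filter.2 ⟨mem_range.2 hcq, h2⟩)
    have h2 : ∃ p, p.Prime ∧ p ∣ q ∧ (p ∣ n ∨ p ∣ n + 2) := by
      have h3 : ∀ k, ¬ Nat.Coprime (c + k) q → ∃ p, p.Prime ∧ p ∣ q ∧ p ∣ n + k := by
        intro k hk
        obtain ⟨p, hp, hp1, hp2⟩ := Nat.Prime.not_coprime_iff_dvd.1 hk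
        refine ⟨p, hp, hp2, ?_⟩
        rw [Nat.dvd_iff_mod_eq_zero] at hp1 ⊢
        have h5 : c % p = n % p := by rw [← h, Nat.mod_mod_of_dvd _ hp2]
        rw [← Nat.mod_add_mod, ← h5, Nat.mod_add_mod]
        exact hp1
      by_cases h4 : Nat.Coprime c q
      · have h5 : ¬ Nat.Coprime (c + 2) q := fun h6 => h1 ⟨h4, h6⟩
        obtain ⟨p, a, b, e⟩ := h3 2 h5
        exact ⟨p, a, b, Or.inr e⟩
      · obtain ⟨p, a, b, e⟩ := h3 0 h4
        exact ⟨p, a, b, Or.inl e⟩
    obtain ⟨p, hp, hpq, hpn⟩ := h2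
    apply prod_eq_zero (Nat.mem_primesLE.2 ⟨hz p hp hpq, hp⟩)
    unfold gp
    rw [if_neg]
    rintro ⟨a, b⟩
    rcases hpn with h | h
    · exact a h
    · exact b h
  · rfl

lemma dens0_id (d : ℕ) (hd : 1 ≤ d) (z q : ℕ) (hq : 1 ≤ q) : dens0 (rh z (idP d)) (q * primorial z) = Sz z {0, 2} := by
  unfold dens0
  have hW0 : 0 < primorial z := primorial_pos z
  have h1 := sum_RQ d hd z {0, 2}
  simp only [rh_RQ] at h1
  have hper1 : ∀ n, rh z (idP d) (n + primorial z) = rh z (idP d) n := by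
    intro n
    have := rh_per z 1 (idP d) n
    rwa [one_mul] at this
  have h2 : ∀ k : ℕ, ∑ n ∈ range (k * primorial z), rh z (idP d) n = k * ∑ n ∈ range (primorial z), rh z (idP d) n := by
    intro k
    induction k with
    | zero => simp
    | succ k ih =>
      rw [Nat.succ_mul, Finset.sum_range_add, ih]
      have h3 : ∑ x ∈ range (primorial z), rh z (idP d) (k * primorial z + x) = ∑ x ∈ range (primorial z), rh z (idP d) x := by
        apply sum_congr rfl
        intro x _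
        rw [add_comm, rh_per]
      rw [h3]
      push_cast
      ring
  rw [h2, h1]
  have hWr : (0 : ℝ) < primorial z := by exact_mod_cast hW0
  have hqr : (0 : ℝ) < q := by exact_mod_cast hq
  push_cast
  field_simp

/-- the density of an admissible class -/
theorem dens_id (d : ℕ) (hd : 1 ≤ d) (z q : ℕ) (hq : 1 ≤ q) (hz : ∀ p, p.Prime → p ∣ q → p ≤ z) :
    ∀ c ∈ adm q, dens (rh z (idP d)) (q * primorial z) q c * (adm q).card = Sz z {0, 2} := by
  intro c hc
  obtain ⟨K, hK⟩ := class_sum d hd z q hq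
  have h1 := dens_sum (rh z (idP d)) (q * primorial z) q hq
  rw [dens0_id d hd z q hq] at h1
  have h2 : ∀ b ∈ range q, dens (rh z (idP d)) (q * primorial z) q b =
      if b ∈ adm q then dens (rh z (idP d)) (q * primorial z) q c else 0 := by
    intro b hb
    split_ifs with h
    · unfold PV.dens
      rw [hK b h, hK c hc]
    · unfold PV.dens
      rw [class_zero d hd z q b hz (mem_range.1 hb) h, zero_div]
  rw [sum_congr rfl h2, ← sum_filter, sum_const, nsmul_eq_mul] at h1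
  have h3 : (range q).filter (fun b => b ∈ adm q) = adm q := by
    ext b
    unfold adm
    simp only [mem_filter, mem_range]
    tauto
  rw [h3] at h1
  rw [mul_comm]
  exact h1

lemma nu02 (p : ℕ) (hp : p.Prime) : nuQ {0, 2} p = if p = 2 then 1 else 2 := by
  unfold nuQ
  split_ifs with h
  · subst h; decide
  · rw [card_image_of_injOn]
    · decide
    · intro a ha b hb hab
      have h2 := hp.two_le
      have hab' : a % p = b % p := hab
      rw [mem_coe, mem_insert, mem_singleton] at ha hb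
      rcases ha with rfl | rfl <;> rcases hb with rfl | rfl
      · rfl
      · rw [Nat.zero_mod, Nat.mod_eq_of_lt (by omega)] at hab'; omega
      · rw [Nat.zero_mod, Nat.mod_eq_of_lt (by omega)] at hab'; omega
      · rfl

lemma nu02_lt (p : ℕ) (hp : p.Prime) : nuQ {0, 2} p < p := by
  rw [nu02 p hp]
  have := hp.two_le
  split_ifs <;> omega

lemma Sz02_le (z : ℕ) : Sz z {0, 2} ≤ 2 := by
  have h1 : ∀ p ∈ Nat.primesLE z, fac {0, 2} p ≤ if p = 2 then 2 else 1 := by
    intro p hp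
    have hpp := Nat.prime_of_mem_primesLE hp
    have hp2 : (2 : ℝ) ≤ p := by exact_mod_cast hpp.two_le
    unfold fac
    rw [nu02 p hpp]
    have e2 : ({0, 2} : Finset ℕ).card = 2 := by decide
    rw [e2]
    obtain ⟨h3, h4⟩ := one_sub_pos p hpp
    split_ifs with h
    · subst h
      norm_num
    · rw [div_le_one (by positivity)]
      have : (1 - 1 / (p : ℝ)) ^ 2 = 1 - (2 : ℕ) / (p : ℝ) + (1 / p) ^ 2 := by push_cast; ring
      rw [this]
      have : 0 ≤ (1 / (p : ℝ)) ^ 2 := by positivity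
      linarith
  have h2 : Sz z {0, 2} = ∏ p ∈ Nat.primesLE z, fac {0, 2} p := rfl
  rw [h2]
  refine (Finset.prod_le_prod (fun p hp => (fac_pos _ p (Nat.prime_of_mem_primesLE hp)
    (nu02_lt p (Nat.prime_of_mem_primesLE hp))).le) h1).trans ?_
  rw [prod_ite_eq' (Nat.primesLE z) 2 (fun _ => (2 : ℝ))]
  split_ifs <;> norm_num

lemma zH_top : Tendsto zH atTop atTop := by
  unfold zH
  have hlog : Tendsto (fun n : ℕ => Real.log n) atTop atTop := Real.tendsto_log_atTop.comp tendsto_natCast_atTop_atTop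
  have hll : Tendsto (fun n : ℕ => Real.log (Real.log n)) atTop atTop := Real.tendsto_log_atTop.comp hlog
  exact tendsto_nat_floor_atTop.comp (hll.atTop_div_const (by norm_num))

end Pool.Agent.Helper82K9.PW
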