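import Pool.Agent.Helper82K9.PW.PW6

set_option autoImplicit false

/-! No bias for almost all polynomials which are congruent to `n` modulo the small primes. -/

namespace Pool.Agent.Helper82K9.PW

open Finset Filter Pool.Agent.Helper82K9.PR Pool.Agent.Helper82K9.PV Pool.Agent.Helper32K9.QB

open Classical in
theorem unbiased (q : ℕ) (hq : 1 ≤ q) (ε : ℝ) (hε : 0 < ε) : ∃ D : ℕ, ∀ d : ℕ, D ≤ d → ∀ B0 : ℕ,
    ∃ A : ℕ, 3 ≤ A ∧ ∀ H : ℕ, A ≤ H → ∀ x : ℕ, Real.log H ^ D ≤ x → (x : ℝ) ≤ Real.log H ^ B0 →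
    (((Cl d H (primorial (zH H)) (idP d)).filter (fun v => ¬ ∀ a ∈ adm q, ∀ b ∈ adm q,
      |(allC (Tw v) q a x : ℝ) * Real.log H ^ 2 / x - SSQ {0, 2} / (adm q).card| ≤ ε ∧
      |(nextC (Tw v) q a b x : ℝ) / allC (Tw v) q a x - 1 / (adm q).card| ≤ ε)).card : ℝ) ≤
      ε * (Cl d H (primorial (zH H)) (idP d)).card := by
  obtain ⟨c, hc, hlow⟩ := Sz_low 2
  have hqr : (1 : ℝ) ≤ q := by exact_mod_cast hq
  set e := min (ε / 2) (min (c / (2 * q)) (ε * c / (4 * q))) with he
  have he0 : 0 < e := lt_min (by positivity) (lt_min (by positivity) (by positivity))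
  have he1 : e ≤ ε / 2 := min_le_left _ _
  have he2 : e ≤ c / (2 * q) := (min_le_right _ _).trans (min_le_left _ _)
  have he3 : e ≤ ε * c / (4 * q) := (min_le_right _ _).trans (min_le_right _ _)
  obtain ⟨D, hD⟩ := nextK q hq 2 (by norm_num) e he0
  refine ⟨max D 1, fun d hd B0 => ?_⟩
  have hd1 : 1 ≤ d := (le_max_right _ _).trans hd
  obtain ⟨A1, hA13, hA1⟩ := hD d ((le_max_left _ _).trans hd) B0
  set τ := min (1 / 4) (ε / 16) with hτ
  have hτ0 : 0 < τ := lt_min (by norm_num) (by positivity)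
  have hτ1 : τ ≤ 1 / 4 := min_le_left _ _
  have hτ2 : τ ≤ ε / 16 := min_le_right _ _
  obtain ⟨Z, hZ⟩ := exists_nat_ge (12 / τ)
  obtain ⟨A2, hA2⟩ := (zH_top.eventually_ge_atTop (Z + 17 + q)).exists_forall_of_atTop
  have hlog : Tendsto (fun n : ℕ => Real.log n) atTop atTop := Real.tendsto_log_atTop.comp tendsto_natCast_atTop_atTop
  obtain ⟨A3, hA3⟩ := (hlog.eventually_ge_atTop (2 : ℝ)).exists_forall_of_atTop
  refine ⟨max A1 (max A2 A3), hA13.trans (le_max_left _ _), fun H hH x hx hxB => ?_⟩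
  have g2 := hA2 H (((le_max_left _ _).trans (le_max_right _ _)).trans hH)
  have g3 := hA3 H (((le_max_right _ _).trans (le_max_right _ _)).trans hH)
  set z := zH H with hz
  set L := Real.log H with hL
  have hL1 : 1 ≤ L := by linarith
  have hxD : L ^ D ≤ x := (pow_le_pow_right₀ hL1 (le_max_left _ _)).trans hx
  have hx2 : (2 : ℝ) ≤ x := by
    refine le_trans ?_ hx
    calc (2 : ℝ) ≤ L := g3
      _ = L ^ 1 := (pow_one _).symm
      _ ≤ _ := pow_le_pow_right₀ hL1 (le_max_right _ _)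
  have hx0 : (0 : ℝ) < x := by linarith
  have hzq : ∀ p, p.Prime → p ∣ q → p ≤ z := by
    intro p _ hpq
    have := Nat.le_of_dvd hq hpq
    omega
  set S := Sz z {0, 2} with hS
  have hSc : c ≤ S := hlow {0, 2} (by decide) nu02_lt z
  have hS2 : S ≤ 2 := Sz02_le z
  have hd0 := dens0_id d hd1 z q hq
  have h1 := hA1 H ((le_max_left _ _).trans hH) x hxD hxB (idP d) (by rw [hd0]; exact hS2)
  -- the singular series
  have hclose : |S - SSQ {0, 2}| ≤ ε / 2 := by
    have hz1 : 1 ≤ z := by omega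
    have hzr : (0 : ℝ) < z := by exact_mod_cast hz1
    have e2 : ({0, 2} : Finset ℕ).card = 2 := by decide
    have hu : uQ {0, 2} ≤ 16 := by
      have := uQ_le {0, 2} 2 (by norm_num) (by
        intro q hq
        rw [mem_insert, mem_singleton] at hq
        omega)
      rw [e2] at this
      exact this
    have h2 := close {0, 2} nu02_lt z hz1 (by rw [e2]; omega) τ (by
      rw [sg_small z _ (by omega), mul_zero, add_zero, e2]
      have h3 : (12 : ℝ) / τ ≤ z := hZ.trans (by exact_mod_cast (by omega : Z ≤ z))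
      rw [div_le_iff₀ hτ0] at h3
      rw [div_le_iff₀ hzr]
      push_cast
      linarith) (by linarith)
    obtain ⟨h3, h4⟩ := h2
    have h5 : SSQ {0, 2} ≤ 4 := by
      have h6 := (abs_le.1 h4).1
      have h7 : 2 * τ * SSQ {0, 2} ≤ 1 / 2 * SSQ {0, 2} := mul_le_mul_of_nonneg_right (by linarith) h3.le
      linarith
    calc |S - SSQ {0, 2}| ≤ 2 * τ * SSQ {0, 2} := h4
      _ ≤ 2 * (ε / 16) * 4 := by gcongr
      _ = _ := by ring
  refine le_trans ?_ (h1.trans (mul_le_mul_of_nonneg_right (by linarith) (Nat.cast_nonneg _)))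
  norm_cast
  apply card_le_card
  intro v hv
  rw [mem_filter] at hv ⊢
  refine ⟨hv.1, fun hcon => hv.2 fun a ha b hb => ?_⟩
  have ha1 : a < q := mem_range.1 (mem_filter.1 ha).1
  have hb1 : b < q := mem_range.1 (mem_filter.1 hb).1
  obtain ⟨k1, k2⟩ := hcon a ha1 b hb1
  have da := dens_id d hd1 z q hq hzq a ha
  have db := dens_id d hd1 z q hq hzq b hb
  set φ : ℝ := ((adm q).card : ℝ) with hφ
  have hφ1 : 1 ≤ φ := by
    rw [hφ]
    exact_mod_cast card_pos.2 ⟨a, ha⟩
  have hφq : φ ≤ q := by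
    rw [hφ]
    have := card_filter_le (range q) (fun c => Nat.Coprime c q ∧ Nat.Coprime (c + 2) q)
    rw [card_range] at this
    exact_mod_cast this
  have hφ0 : 0 < φ := by linarith
  have da' : PV.dens (rh z (idP d)) (q * primorial z) q a = S / φ := by
    rw [eq_div_iff hφ0.ne']
    exact da
  have db' : PV.dens (rh z (idP d)) (q * primorial z) q b = S / φ := by
    rw [eq_div_iff hφ0.ne']
    exact db
  have hS0 : 0 < S := by linarith
  rw [da', db', hd0] at k1
  rw [da'] at k2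
  set Na : ℝ := (allC (Tw v) q a x : ℝ) with hNa
  set Nn : ℝ := (nextC (Tw v) q a b x : ℝ) with hNn
  have e3 : S / φ * (S / φ) / S * x = S / φ ^ 2 * x := by field_simp
  rw [e3] at k1
  -- the quotients by x
  have j1 : |L ^ 2 * Nn / x - S / φ ^ 2| ≤ e := by
    have : L ^ 2 * Nn / x - S / φ ^ 2 = (L ^ 2 * Nn - S / φ ^ 2 * x) / x := by field_simp
    rw [this, abs_div, abs_of_pos hx0, div_le_iff₀ hx0]
    exact k1
  have j2 : |L ^ 2 * Na / x - S / φ| ≤ e := by
    have : L ^ 2 * Na / x - S / φ = (L ^ 2 * Na - S / φ * x) / x := by field_simp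
    rw [this, abs_div, abs_of_pos hx0, div_le_iff₀ hx0]
    exact k2
  have hlowA : c / (2 * q) ≤ L ^ 2 * Na / x := by
    have h2 := (abs_le.1 j2).1
    have h3 : c / q ≤ S / φ := by gcongr
    have h4 : c / q = c / (2 * q) + c / (2 * q) := by field_simp; ring
    linarith
  refine ⟨?_, ?_⟩
  · have e4 : Na * L ^ 2 / x = L ^ 2 * Na / x := by ring
    rw [e4]
    have h2 : |S / φ - SSQ {0, 2} / φ| ≤ ε / 2 := by
      rw [← sub_div, abs_div, abs_of_pos hφ0]
      exact (div_le_self (abs_nonneg _) hφ1).trans hclose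
    have h3 := abs_sub_le (L ^ 2 * Na / x) (S / φ) (SSQ {0, 2} / φ)
    linarith
  · have hA0 : 0 < L ^ 2 * Na / x := lt_of_lt_of_le (by positivity) hlowA
    have hL0 : 0 < L := by linarith
    have hNa0 : Na ≠ 0 := by
      intro h
      rw [h, mul_zero, zero_div] at hA0
      exact lt_irrefl _ hA0
    have e5 : Nn / Na - 1 / φ = ((L ^ 2 * Nn / x - S / φ ^ 2) - (L ^ 2 * Na / x - S / φ) / φ) / (L ^ 2 * Na / x) := by
      field_simp
      ring
    rw [e5, abs_div, abs_of_pos hA0, div_le_iff₀ hA0]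
    have h2 : |(L ^ 2 * Na / x - S / φ) / φ| ≤ e := by
      rw [abs_div, abs_of_pos hφ0]
      exact (div_le_self (abs_nonneg _) hφ1).trans j2
    have h3 := abs_sub (L ^ 2 * Nn / x - S / φ ^ 2) ((L ^ 2 * Na / x - S / φ) / φ)
    have h4 : 2 * e ≤ ε * (c / (2 * q)) := by
      calc 2 * e ≤ 2 * (ε * c / (4 * q)) := by linarith
        _ = _ := by field_simp; ring
    have h5 : ε * (c / (2 * q)) ≤ ε * (L ^ 2 * Na / x) := mul_le_mul_of_nonneg_left hlowA hε.le
    linarith

end Pool.Agent.Helper82K9.PW
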