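import Pool.Agent.Helper82K9.PW.PW7
import Pool.Agent.Helper82K9.PR.PR9

set_option autoImplicit false

/-! The number of the tuples of primes for almost all polynomials of a residue class, uniformly in the shifts. -/

namespace Pool.Agent.Helper82K9.PW

open Finset Filter Pool.Agent.Helper82K9.PR Pool.Agent.Helper82K9.PV Pool.Agent.Helper32K9.QB

lemma FF_Fr {k d : ℕ} (L : ℝ) (h : Fin k → ℕ) (v : Fin (d + 1) → ℤ) (n : ℕ) :
    Fr L (fun i => n + h i) v = FF L h (fun _ _ => 0) v n := by
  unfold FF Fr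
  simp only [add_zero]

lemma RR_Rr {k d : ℕ} (z : ℕ) (h : Fin k → ℕ) (v : Fin (d + 1) → ℤ) (n : ℕ) :
    Rr z (fun i => n + h i) v = RR z h (fun _ _ => 0) v n := by
  unfold RR Rr
  simp only [add_zero]

lemma SS_nonneg {k d : ℕ} (z : ℕ) (h : Fin k → ℕ) (v : Fin (d + 1) → ℤ) : 0 ≤ SS z h v := by
  unfold SS
  apply prod_nonneg
  intro p hp
  have hpp := (mem_filter.1 hp).2
  have hp0 : (0 : ℝ) < p := by exact_mod_cast hpp.pos
  obtain ⟨h1, -⟩ := one_sub_pos p hpp
  apply div_nonneg _ (by positivity)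
  rw [sub_nonneg, div_le_one hp0]
  unfold nu
  have := card_filter_le (range p) (fun n => ∃ i, (p : ℤ) ∣ pv v (n + h i))
  rw [card_range] at this
  exact_mod_cast this

open Classical in
/-- the asymptotic formula at all places -/
theorem classS (k : ℕ) (d : ℕ) (hk : 1 ≤ k) (hd : 2 * k ≤ d + 1) (B0 : ℕ)
    (ε : ℝ) (hε : 0 < ε) : ∃ A : ℕ, 3 ≤ A ∧ ∀ H : ℕ, A ≤ H → ∀ x : ℕ,
    A * Real.log H ^ k ≤ x → (x : ℝ) ≤ Real.log H ^ B0 → ∀ h : Fin k → ℕ, Function.Injective h → (∀ i, h i ≤ x) →
    ∀ P : Fin (d + 1) → ℤ,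
    (((Cl d H (primorial (zH H)) P).filter (fun v => ∃ y ≤ x, ε * (1 + SS (zH H) h P) * x <
      |∑ n ∈ Icc 1 y, FF (Real.log H) h (fun _ _ => 0) v n - SS (zH H) h P * y|)).card : ℝ) ≤
      ε * (Cl d H (primorial (zH H)) P).card := by
  obtain ⟨J, hJ⟩ := exists_nat_ge (8 / ε + 1)
  have hJ1 : (1 : ℝ) ≤ J := by
    have : 0 ≤ 8 / ε := by positivity
    linarith
  have hJ0 : 0 < J := by exact_mod_cast lt_of_lt_of_le one_pos hJ1
  obtain ⟨A1, hA13, hA1⟩ := genM k d (B0 + 1) (k ^ 2) hd ((ε / 4) ^ 2 * (ε / (J + 2)) / 4) (by positivity)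
  obtain ⟨H2, hH2, hz⟩ := zH_facts d B0 k (min 1 (ε / 16)) (lt_min one_pos (by positivity))
  obtain ⟨A2, hA2⟩ := exists_nat_ge (16 / ε)
  refine ⟨max (max A1 A2) H2, (hA13.trans (le_max_left _ _)).trans (le_max_left _ _),
    fun H hH x hAx hxB h hh hhx P => ?_⟩
  have hHA1 : A1 ≤ H := ((le_max_left _ _).trans (le_max_left _ _)).trans hH
  have hHH2 : H2 ≤ H := (le_max_right _ _).trans hH
  obtain ⟨hL2, -, -, -, -, hR⟩ := hz H hHH2
  have hA1' := hA1 H hHA1
  set z := zH H with hzdef
  set L := Real.log H with hL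
  have hL1 : 1 ≤ L := by linarith
  have hLk : 1 ≤ L ^ k := one_le_pow₀ hL1
  have hxm : ((max (max A1 A2) H2 : ℕ) : ℝ) ≤ x := by
    refine le_trans ?_ hAx
    exact le_mul_of_one_le_right (Nat.cast_nonneg _) hLk
  have hxA1 : A1 * L ^ k ≤ x := by
    refine le_trans ?_ hAx
    apply mul_le_mul_of_nonneg_right _ (by positivity)
    exact_mod_cast (le_max_left _ _).trans (le_max_left _ _)
  have hLx : L ≤ x := by
    have h1 : (1 : ℝ) ≤ ((max (max A1 A2) H2 : ℕ) : ℝ) := by
      exact_mod_cast (by norm_num : 1 ≤ 3).trans ((hA13.trans (le_max_left _ _)).trans (le_max_left _ _))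
    have h2 : L ≤ L ^ k := le_self_pow₀ hL1 (by omega)
    refine le_trans ?_ hAx
    nlinarith
  have hSx' : 1 ≤ ε / 16 * x := by
    have h1 : (A2 : ℝ) ≤ x := by
      refine le_trans ?_ hxm
      exact_mod_cast (le_max_right _ _).trans (le_max_left _ _)
    have h2 := hA2.trans h1
    rw [div_le_iff₀ hε] at h2
    linarith
  have hx1 : (1 : ℝ) ≤ x := by linarith
  have hx0 : (0 : ℝ) < x := by linarith
  have hxn : 1 ≤ x := by exact_mod_cast hx1
  set S := SS z h P with hSdef
  have hSS0 : 0 ≤ S := SS_nonneg z h P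
  set R := Cz z ^ k * (primorial z : ℝ) with hRdef
  have hR0 : 0 ≤ R := by have := Cz_ge z; positivity
  have hRx' : R ≤ ε / 16 * x := by
    calc R ≤ min 1 (ε / 16) * L := hR
      _ ≤ ε / 16 * x := mul_le_mul (min_le_right _ _) hLx (by linarith) (by positivity)
  have hRx1' : R ≤ x := by
    calc R ≤ min 1 (ε / 16) * L := hR
      _ ≤ 1 * x := mul_le_mul (min_le_left _ _) hLx (by linarith) (by positivity)
      _ = x := one_mul _
  set D := (1 + S) * x with hD
  have hD0 : 0 < D := by positivity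
  have hxD : (x : ℝ) ≤ D := le_mul_of_one_le_left hx0.le (by linarith)
  have hRx : R ≤ ε / 16 * D := hRx'.trans (mul_le_mul_of_nonneg_left hxD (by positivity))
  have hSx : S ≤ ε / 16 * D := by
    have h1 : S * 1 ≤ S * (ε / 16 * x) := mul_le_mul_of_nonneg_left hSx' hSS0
    have h2 : 0 ≤ ε / 16 * x := by positivity
    rw [hD]
    nlinarith
  set yy : ℕ → ℕ := fun j => min x (j * x / J) with hyy
  set C := Cl d H (primorial z) P with hC
  set N : ℝ := (C.card : ℝ) with hN
  have hN0 : 0 ≤ N := Nat.cast_nonneg _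
  have hRRy := RR_sum z h P
  have hcard : ((Icc 1 x).card : ℝ) = x := by rw [Nat.card_Icc, Nat.add_sub_cancel]
  -- the exceptional sets
  set E : ℕ → Finset (Fin (d + 1) → ℤ) := fun j => C.filter (fun v => (ε / 4 * D) ^ 2 <
    (∑ n ∈ Icc 1 x, (if n ≤ yy j then (1 : ℝ) else 0) * (FF L h (fun _ _ => 0) v n - RR z h (fun _ _ => 0) P n)) ^ 2)
    with hE
  have hEc : ∀ j, ((E j).card : ℝ) ≤ ε / (J + 2) * N := by
    intro j
    have h1 := hA1' ℕ (Icc 1 x) (fun n i => n + h i) (by
      intro n hn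
      rw [mem_Icc] at hn
      refine ⟨fun i j hij => hh (by simpa using hij), fun i => ⟨by omega, ?_⟩⟩
      have h2 := hhx i
      have h3 : ((n + h i : ℕ) : ℝ) ≤ 2 * x := by
        have : n + h i ≤ 2 * x := by omega
        exact_mod_cast this
      refine h3.trans ?_
      rw [pow_succ]
      have h4 : (0 : ℝ) ≤ L ^ B0 := by positivity
      nlinarith) (fun n _ => apart_card h _ n) (by rw [hcard]; exact hxA1) (fun n => if n ≤ yy j then (1 : ℝ) else 0)
      (fun n => by split_ifs <;> simp) P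
    simp only [FF_Fr, RR_Rr, hcard] at h1
    have h5 : ∑ n ∈ Icc 1 x, |(if n ≤ yy j then (1 : ℝ) else 0)| * RR z h (fun _ _ => 0) P n ≤ D := by
      calc _ ≤ ∑ n ∈ Icc 1 x, RR z h (fun _ _ => 0) P n := by
            apply sum_le_sum
            intro n _
            apply mul_le_of_le_one_left (RR_nonneg z h _ P n)
            split_ifs <;> simp
        _ ≤ S * x + R := by
            have := (abs_le.1 (hRRy x)).2
            linarith
        _ ≤ D := by rw [hD]; linarith
    have h50 : 0 ≤ ∑ n ∈ Icc 1 x, |(if n ≤ yy j then (1 : ℝ) else 0)| * RR z h (fun _ _ => 0) P n :=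
      sum_nonneg fun n _ => mul_nonneg (abs_nonneg _) (RR_nonneg z h _ P n)
    refine cheb C (fun v => (∑ n ∈ Icc 1 x, (if n ≤ yy j then (1 : ℝ) else 0) *
      (FF L h (fun _ _ => 0) v n - RR z h (fun _ _ => 0) P n)) ^ 2) (fun v => sq_nonneg _)
      ((ε / 4 * D) ^ 2) (ε / (J + 2)) (by positivity) (h1.trans ?_)
    calc (ε / 4) ^ 2 * (ε / (J + 2)) / 4 * (x + ∑ n ∈ Icc 1 x, |(if n ≤ yy j then (1 : ℝ) else 0)| *
          RR z h (fun _ _ => 0) P n) ^ 2 * N ≤ (ε / 4) ^ 2 * (ε / (J + 2)) / 4 * (D + D) ^ 2 * N := by gcongr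
      _ = _ := by ring
  have hsub : C.filter (fun v => ∃ y ≤ x, ε * (1 + S) * x < |∑ n ∈ Icc 1 y, FF L h (fun _ _ => 0) v n - S * y|) ⊆
      (range (J + 2)).biUnion E := by
    intro v hv
    rw [mem_filter] at hv
    obtain ⟨hvB, y, hyx, hy⟩ := hv
    by_contra hcon
    rw [mem_biUnion] at hcon
    push Not at hcon
    have hpt : ∀ j ∈ range (J + 2), |∑ n ∈ Icc 1 (yy j), FF L h (fun _ _ => 0) v n -
        ∑ n ∈ Icc 1 (yy j), RR z h (fun _ _ => 0) P n| ≤ ε / 4 * D := by
      intro j hj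
      have h1 := hcon j hj
      have h2 : (∑ n ∈ Icc 1 x, (if n ≤ yy j then (1 : ℝ) else 0) *
          (FF L h (fun _ _ => 0) v n - RR z h (fun _ _ => 0) P n)) ^ 2 ≤ (ε / 4 * D) ^ 2 := by
        by_contra hlt
        push Not at hlt
        exact h1 (mem_filter.2 ⟨hvB, hlt⟩)
      have h3 := abs_le_of_sq_le_sq h2 (by positivity)
      have e1 : ∑ n ∈ Icc 1 x, (if n ≤ yy j then (1 : ℝ) else 0) *
          (FF L h (fun _ _ => 0) v n - RR z h (fun _ _ => 0) P n) =
          ∑ n ∈ Icc 1 (yy j), FF L h (fun _ _ => 0) v n - ∑ n ∈ Icc 1 (yy j), RR z h (fun _ _ => 0) P n := by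
        rw [← sum_sub_distrib]
        have e2 : Icc 1 (yy j) = (Icc 1 x).filter (fun n => n ≤ yy j) := by
          ext n
          rw [mem_filter, mem_Icc, mem_Icc]
          have : yy j ≤ x := min_le_left _ _
          omega
        rw [e2, sum_filter]
        apply sum_congr rfl
        intro n _
        split_ifs <;> simp
      rw [e1] at h3
      exact h3
    -- the two places
    set j := y * J / x with hj
    have hjJ : j ≤ J := by
      rw [hj]
      calc y * J / x ≤ x * J / x := Nat.div_le_div_right (Nat.mul_le_mul_right _ hyx)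
        _ = J := Nat.mul_div_cancel_left _ (by omega)
    have hj1 : yy j ≤ y := by
      have h1 : j * x ≤ y * J := Nat.div_mul_le_self _ _
      have h2 : j * x / J ≤ y := by
        calc j * x / J ≤ y * J / J := Nat.div_le_div_right h1
          _ = y := Nat.mul_div_cancel _ hJ0
      exact (min_le_right _ _).trans h2
    have hj2 : y ≤ yy (j + 1) := by
      apply le_min hyx
      rw [Nat.le_div_iff_mul_le hJ0]
      have := Nat.lt_mul_div_succ (y * J) (by omega : 0 < x)
      rw [← hj] at this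
      calc y * J ≤ x * (j + 1) := this.le
        _ = (j + 1) * x := by ring
    have hj3 : (yy (j + 1) : ℝ) - yy j ≤ x / J + 1 := by
      have h1 : (j + 1) * x / J ≤ j * x / J + (x / J + 1) := by
        rw [add_mul, one_mul]
        have h4 := Nat.add_div hJ0 (a := j * x) (b := x)
        rw [h4]
        split_ifs <;> omega
      have h2 : yy (j + 1) ≤ yy j + (x / J + 1) := by
        show min x ((j + 1) * x / J) ≤ min x (j * x / J) + (x / J + 1)
        rcases le_total x (j * x / J) with h | h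
        · rw [min_eq_left h]; exact (min_le_left _ _).trans (Nat.le_add_right _ _)
        · rw [min_eq_right h]; exact (min_le_right _ _).trans h1
      have h3 : ((yy (j + 1) : ℕ) : ℝ) ≤ yy j + ((x / J : ℕ) + 1) := by exact_mod_cast h2
      have h4 : ((x / J : ℕ) : ℝ) ≤ x / J := Nat.cast_div_le
      linarith
    have hJx : S * (x / J + 1) ≤ 3 * ε / 16 * D := by
      have h1 : 8 / ε ≤ J := by linarith
      rw [div_le_iff₀ hε] at h1
      have h2 : S * (x / J) ≤ ε / 8 * D := by
        rw [← mul_div_assoc, div_le_iff₀ (by linarith), hD]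
        calc S * x = 8 * (S * x) / 8 := by ring
          _ ≤ (J * ε) * (S * x) / 8 := by gcongr
          _ ≤ (J * ε) * ((1 + S) * x) / 8 := by gcongr; linarith
          _ = _ := by ring
      linarith
    have p1 := hpt j (mem_range.2 (by omega))
    have p2 := hpt (j + 1) (mem_range.2 (by omega))
    have q1 := hRRy (yy j)
    have q2 := hRRy (yy (j + 1))
    have hFFm : ∀ a b : ℕ, a ≤ b → ∑ n ∈ Icc 1 a, FF L h (fun _ _ => 0) v n ≤ ∑ n ∈ Icc 1 b, FF L h (fun _ _ => 0) v n := by
      intro a b hab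
      apply sum_le_sum_of_subset_of_nonneg
      · exact Icc_subset_Icc_right hab
      · intro n _ _
        exact FF_nonneg (by linarith) h _ v n
    have m1 := hFFm _ _ hj1
    have m2 := hFFm _ _ hj2
    have hy1 : (yy j : ℝ) ≤ y := by exact_mod_cast hj1
    have hy2 : (y : ℝ) ≤ yy (j + 1) := by exact_mod_cast hj2
    have r1 : S * (yy (j + 1) - y) ≤ S * (x / J + 1) := mul_le_mul_of_nonneg_left (by linarith) hSS0
    have r2 : S * (y - yy j) ≤ S * (x / J + 1) := mul_le_mul_of_nonneg_left (by linarith) hSS0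
    obtain ⟨p11, p12⟩ := abs_le.1 p1
    obtain ⟨p21, p22⟩ := abs_le.1 p2
    obtain ⟨q11, q12⟩ := abs_le.1 q1
    obtain ⟨q21, q22⟩ := abs_le.1 q2
    have hεx : 0 < ε * D := by positivity
    have e9 : ε * (1 + S) * x = ε * D := by rw [hD]; ring
    rw [e9] at hy
    have : |∑ n ∈ Icc 1 y, FF L h (fun _ _ => 0) v n - S * y| ≤ ε * D := by
      rw [abs_le]
      constructor
      · nlinarith
      · nlinarith
    linarith
  calc ((C.filter (fun v => ∃ y ≤ x, ε * (1 + S) * x < |∑ n ∈ Icc 1 y, FF L h (fun _ _ => 0) v n - S * y|)).card : ℝ)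
      ≤ (((range (J + 2)).biUnion E).card : ℝ) := by exact_mod_cast card_le_card hsub
    _ ≤ ∑ j ∈ range (J + 2), ((E j).card : ℝ) := by exact_mod_cast card_biUnion_le
    _ ≤ ∑ j ∈ range (J + 2), ε / (J + 2) * N := sum_le_sum fun j _ => hEc j
    _ = ε * N := by
        rw [sum_const, card_range, nsmul_eq_mul]
        push_cast
        have : (J : ℝ) + 2 ≠ 0 := by positivity
        field_simp

/-- the local densities of the polynomial `n` -/
lemma SS_id {k : ℕ} (d : ℕ) (hd : 1 ≤ d) (z : ℕ) (h : Fin k → ℕ) (hh : Function.Injective h) :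
    SS z h (idP d) = Sz z (univ.image h) := by
  classical
  have hk : (univ.image h).card = k := by rw [card_image_of_injective _ hh, card_univ, Fintype.card_fin]
  unfold SS Sz
  rw [hk, PR.primes_eq z]
  apply prod_congr rfl
  intro p hp
  have hpp := Nat.prime_of_mem_primesLE hp
  congr 3
  have h1 := count_p p hpp.pos (univ.image h)
  have h2 := card_filter_add_card_filter_not (s := range p) (fun r => ∀ q ∈ univ.image h, ¬ p ∣ r + q)
  have h3 : nu h (idP d) p = ((range p).filter (fun r => ¬ ∀ q ∈ univ.image h, ¬ p ∣ r + q)).card := by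
    unfold nu
    congr 1
    ext r
    rw [mem_filter, mem_filter]
    apply and_congr_right
    intro _
    push Not
    constructor
    · rintro ⟨i, hi⟩
      rw [pv_idP d hd] at hi
      exact ⟨h i, mem_image_of_mem _ (mem_univ _), by exact_mod_cast hi⟩
    · rintro ⟨q, hq, hqr⟩
      rw [mem_image] at hq
      obtain ⟨i, _, rfl⟩ := hq
      exact ⟨i, by rw [pv_idP d hd]; exact_mod_cast hqr⟩
  rw [card_range] at h2
  have h4 : (((range p).filter (fun r => ∀ q ∈ univ.image h, ¬ p ∣ r + q)).card : ℝ) +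
      (((range p).filter (fun r => ¬ ∀ q ∈ univ.image h, ¬ p ∣ r + q)).card : ℝ) = p := by exact_mod_cast h2
  rw [h3]
  linarith

end Pool.Agent.Helper82K9.PW
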