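import Pool.Agent.Helper82K9.PW.PW8

set_option autoImplicit false

/-! The tuples of primes for almost all polynomials which are congruent to `n` modulo the small primes. -/

namespace Pool.Agent.Helper82K9.PW

open Finset Filter Pool.Agent.Helper82K9.PR Pool.Agent.Helper82K9.PV Pool.Agent.Helper32K9.QB

open Classical in
theorem classN (k : ℕ) (d : ℕ) (hk : 1 ≤ k) (hd : 2 * k ≤ d + 1) (B0 : ℕ)
    (ε : ℝ) (hε : 0 < ε) : ∃ A : ℕ, 3 ≤ A ∧ ∀ H : ℕ, A ≤ H → ∀ x : ℕ,
    A * Real.log H ^ k ≤ x → (x : ℝ) ≤ Real.log H ^ B0 → ∀ h : Fin k → ℕ, Function.Injective h → (∀ i, h i ≤ x) →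
    (∀ p : ℕ, p.Prime → nuQ (univ.image h) p < p) →
    (((Cl d H (primorial (zH H)) (idP d)).filter (fun v => ∃ y ≤ x, ε * SSQ (univ.image h) * x <
      |∑ n ∈ Icc 1 y, FF (Real.log H) h (fun _ _ => 0) v n - SSQ (univ.image h) * y|)).card : ℝ) ≤
      ε * (Cl d H (primorial (zH H)) (idP d)).card := by
  obtain ⟨c, hc, hlow⟩ := Sz_low k
  set e := min ε (ε / (4 * (1 / c + 1))) with he
  have he0 : 0 < e := lt_min hε (by positivity)
  have he1 : e ≤ ε := min_le_left _ _
  have he2 : e ≤ ε / (4 * (1 / c + 1)) := min_le_right _ _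
  obtain ⟨A1, hA13, hA1⟩ := classS k d hk hd B0 e he0
  set τ := min (1 / 2) (ε / 4) with hτ
  have hτ0 : 0 < τ := lt_min (by norm_num) (by positivity)
  have hτ1 : τ ≤ 1 / 2 := min_le_left _ _
  have hτ2 : τ ≤ ε / 4 := min_le_right _ _
  have hkr : (1 : ℝ) ≤ k := by exact_mod_cast hk
  obtain ⟨Z, hZ⟩ := exists_nat_ge (2 * (2 * (k : ℝ) ^ 2 + 2 * k) / τ)
  obtain ⟨A2, hA2⟩ := (zH_top.eventually_ge_atTop (Z + 2 * k + 1)).exists_forall_of_atTop
  obtain ⟨A3, hA33, hA3⟩ := zH_facts 1 B0 1 (τ / (k : ℝ) ^ 3) (by positivity)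
  refine ⟨max A1 (max A2 A3), hA13.trans (le_max_left _ _), fun H hH x hx hxB h hh hhx hadm => ?_⟩
  have g1 : A1 ≤ H := (le_max_left _ _).trans hH
  have g2 := hA2 H (((le_max_left _ _).trans (le_max_right _ _)).trans hH)
  obtain ⟨hL2, hz2, -, -, hz5, -⟩ := hA3 H (((le_max_right _ _).trans (le_max_right _ _)).trans hH)
  set z := zH H with hz
  set L := Real.log H with hL
  have hL1 : 1 ≤ L := by linarith
  have hxA1 : A1 * L ^ k ≤ x := by
    refine le_trans ?_ hx
    apply mul_le_mul_of_nonneg_right _ (by positivity)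
    exact_mod_cast le_max_left _ _
  have hx1 : (1 : ℝ) ≤ x := by
    refine le_trans ?_ hxA1
    have h1 : (1 : ℝ) ≤ A1 := by exact_mod_cast (by omega : 1 ≤ A1)
    have h2 : 1 ≤ L ^ k := one_le_pow₀ hL1
    nlinarith
  have hx0 : (0 : ℝ) < x := by linarith
  have hxn : 1 ≤ x := by exact_mod_cast hx1
  have h1 := hA1 H g1 x hxA1 hxB h hh hhx (idP d)
  have hd1 : 1 ≤ d := by omega
  rw [SS_id d hd1 z h hh] at h1
  set Q := univ.image h with hQ
  have hQc : Q.card = k := by rw [hQ, card_image_of_injective _ hh, card_univ, Fintype.card_fin]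
  set S := Sz z Q with hS
  have hSc : c ≤ S := hlow Q hQc hadm z
  have hS0 : 0 < S := by linarith
  have hz1 : 1 ≤ z := by omega
  have hzr : (0 : ℝ) < z := by exact_mod_cast hz1
  have hQx : ∀ q ∈ Q, q ≤ x := by
    intro q hq
    rw [hQ, mem_image] at hq
    obtain ⟨i, _, rfl⟩ := hq
    exact hhx i
  have hsg : (k : ℝ) * sg z (uQ Q) ≤ τ / 2 := by
    have h2 := sg_le z (uQ Q) hz2 (uQ_pos Q)
    have h3 : Real.log (uQ Q) ≤ k ^ 2 * Real.log x := by
      have h4 := uQ_le Q x hxn hQx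
      rw [hQc] at h4
      have h5 : ((uQ Q : ℕ) : ℝ) ≤ (x : ℝ) ^ (k ^ 2) := by exact_mod_cast h4
      have h6 := Real.log_le_log (by exact_mod_cast uQ_pos Q) h5
      rw [Real.log_pow] at h6
      push_cast at h6
      exact h6
    have h4 := hz5 x hxn hxB
    have hlz : 0 < Real.log z := Real.log_pos (by exact_mod_cast (by omega : 1 < z))
    have h5 : sg z (uQ Q) ≤ k ^ 2 * (Real.log x / (z * Real.log z)) := by
      refine h2.trans ?_
      rw [← mul_div_assoc]
      gcongr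
    have h6 : Real.log x / (z * Real.log z) ≤ τ / (k : ℝ) ^ 3 / 2 := by
      push_cast at h4
      have h7 : (1 + 1) * (1 * Real.log x / (z * Real.log z)) = 2 * (Real.log x / (z * Real.log z)) := by ring
      rw [h7] at h4
      linarith
    calc (k : ℝ) * sg z (uQ Q) ≤ k * (k ^ 2 * (τ / (k : ℝ) ^ 3 / 2)) := by
          apply mul_le_mul_of_nonneg_left _ (by positivity)
          refine h5.trans ?_
          gcongr
      _ = τ / 2 := by field_simp
  have hclose := close Q hadm z hz1 (by rw [hQc]; omega) τ (by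
    rw [hQc]
    have h3 : 2 * (2 * (k : ℝ) ^ 2 + 2 * k) / τ ≤ z := hZ.trans (by exact_mod_cast (by omega : Z ≤ z))
    rw [div_le_iff₀ hτ0] at h3
    have h4 : (2 * (k : ℝ) ^ 2 + 2 * k) / z ≤ τ / 2 := by
      rw [div_le_iff₀ hzr]
      linarith
    linarith) (by linarith)
  obtain ⟨hSS0, hcl⟩ := hclose
  set T := SSQ Q with hT
  refine le_trans ?_ (h1.trans (mul_le_mul_of_nonneg_right he1 (Nat.cast_nonneg _)))
  norm_cast
  apply card_le_card
  intro v hv
  rw [mem_filter] at hv ⊢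
  obtain ⟨hv1, y, hyx, hy⟩ := hv
  refine ⟨hv1, y, hyx, ?_⟩
  by_contra hcon
  push Not at hcon
  have hyr : (y : ℝ) ≤ x := by exact_mod_cast hyx
  have hy0 : (0 : ℝ) ≤ y := Nat.cast_nonneg _
  have h2 : |S * y - T * y| ≤ ε / 2 * T * x := by
    rw [← sub_mul, abs_mul, abs_of_nonneg hy0]
    calc |S - T| * y ≤ (2 * τ * T) * x := by gcongr
      _ ≤ (2 * (ε / 4) * T) * x := by gcongr
      _ = _ := by ring
  have hS2 : S ≤ 2 * T := by
    have h3 := (abs_le.1 hcl).2
    have h4 : 2 * τ * T ≤ 1 * T := mul_le_mul_of_nonneg_right (by linarith) hSS0.le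
    linarith
  have h3 : e * (1 + S) * x ≤ ε / 2 * T * x := by
    apply mul_le_mul_of_nonneg_right _ hx0.le
    have h4 : 1 + S ≤ (1 / c + 1) * S := by
      have : 1 ≤ 1 / c * S := by
        rw [one_div, inv_mul_eq_div, le_div_iff₀ hc]
        linarith
      linarith
    calc e * (1 + S) ≤ ε / (4 * (1 / c + 1)) * ((1 / c + 1) * (2 * T)) := by
          apply mul_le_mul he2 _ (by positivity) (by positivity)
          refine h4.trans ?_
          apply mul_le_mul_of_nonneg_left hS2 (by positivity)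
      _ = ε / 2 * T := by field_simp; ring
  have h5 := abs_sub_le (∑ n ∈ Icc 1 y, FF L h (fun _ _ => 0) v n) (S * y) (T * y)
  linarith

end Pool.Agent.Helper82K9.PW
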